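import Pool.Agent.K4H72.SC.C

/-!
# Many zeros away from the edges make the function small: Jensen's inequality in a strip
-/

set_option autoImplicit false

open MeasureTheory Filter Topology Set Complex Metric

namespace Pool.Agent.K4H72.SC

lemma order_ne_top' {f : ℂ → ℂ} {K : Set ℂ} (hK : IsPreconnected K)
    (hf : AnalyticOnNhd ℂ f K) {c z : ℂ} (hcK : c ∈ K) (hc : f c ≠ 0) (hz : z ∈ K) :
    analyticOrderAt f z ≠ ⊤ := by
  refine hf.analyticOrderAt_ne_top_of_isPreconnected hK hcK hz ?_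
  rw [(hf c hcK).analyticOrderAt_eq_zero.mpr hc]
  exact ENat.zero_ne_top

lemma divisor_eq' {f : ℂ → ℂ} {K : Set ℂ} (hK : IsPreconnected K)
    (hf : AnalyticOnNhd ℂ f K) {c z : ℂ} (hcK : c ∈ K) (hc : f c ≠ 0) (hz : z ∈ K) :
    MeromorphicOn.divisor f K z = (analyticOrderNatAt f z : ℤ) := by
  have h := order_ne_top' hK hf hcK hc hz
  rw [MeromorphicOn.AnalyticOnNhd.divisor_apply hf hz]
  rw [← Nat.cast_analyticOrderNatAt h]
  simp

/-- Jensen's inequality for multiplicities over a finite set in the smaller ball -/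
lemma jensen_ord {f : ℂ → ℂ} {c : ℂ} {r R M : ℝ} (hr : 0 < r) (hrR : r < R) (hM : 1 ≤ M)
    (hf : AnalyticOnNhd ℂ f (closedBall c R)) (hc : f c ≠ 0)
    (hb : ∀ z ∈ closedBall c R, ‖f z‖ ≤ M) (S : Finset ℂ) (hS : ∀ z ∈ S, z ∈ closedBall c r) :
    ∑ z ∈ S, (analyticOrderNatAt f z : ℝ) ≤ Real.log (M / ‖f c‖) / Real.log (R / r) := by
  have hR : 0 < R := hr.trans hrR
  have habsR : |R| = R := abs_of_pos hR
  have habsr : |r| = r := abs_of_pos hr
  have hK : IsPreconnected (closedBall c r) := (convex_closedBall c r).isPreconnected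
  have hfr : AnalyticOnNhd ℂ f (closedBall c r) := hf.mono (closedBall_subset_closedBall hrR.le)
  have hcr : c ∈ closedBall c r := mem_closedBall_self hr.le
  have key := AnalyticOnNhd.sum_divisor_le (c := c) (r := r) (R := R) (M := M) (f := f)
    (by rw [habsr]; exact hr) (by rw [habsr, habsR]; exact hrR) hM (by rw [habsR]; exact hf) hc
    (by
      rw [habsR]
      intro z hz
      exact hb z (sphere_subset_closedBall hz))
  refine le_trans ?_ key
  rw [habsr]
  have hfin : (Function.support (MeromorphicOn.divisor f (closedBall c r))).Finite :=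
    (MeromorphicOn.divisor f (closedBall c r)).finiteSupport (isCompact_closedBall c r)
  have hnn : ∀ u, 0 ≤ MeromorphicOn.divisor f (closedBall c r) u := fun u => by
    by_cases hu : u ∈ closedBall c r
    · rw [divisor_eq' hK hfr hcr hc hu]; positivity
    · rw [Function.locallyFinsuppWithin.apply_eq_zero_of_notMem _ hu]
  have h1 : ∑ z ∈ S, (analyticOrderNatAt f z : ℤ) ≤ ∑ᶠ u, MeromorphicOn.divisor f (closedBall c r) u := by
    have h2 : ∑ z ∈ S, (analyticOrderNatAt f z : ℤ) = ∑ z ∈ S, MeromorphicOn.divisor f (closedBall c r) z :=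
      Finset.sum_congr rfl fun z hz => (divisor_eq' hK hfr hcr hc (hS z hz)).symm
    rw [h2, finsum_eq_sum_of_support_subset (s := hfin.toFinset ∪ S) _ (by
      intro x hx; simp only [Finset.coe_union, Set.Finite.coe_toFinset, mem_union]; exact Or.inl hx)]
    exact Finset.sum_le_sum_of_subset_of_nonneg Finset.subset_union_right fun u _ _ => hnn u
  exact_mod_cast h1

/-- the map of the disc onto the strip `|Re s - 1/2| < w / 2` -/
noncomputable def mp (w : ℝ) (ζ : ℂ) : ℂ := 1 / 2 + -(I * (w / Real.pi : ℝ)) * Complex.log ((1 + ζ) / (1 - ζ))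

/-- the exponential of the inverse -/
noncomputable def ex (w : ℝ) (s : ℂ) : ℂ := Complex.exp (I * (Real.pi / w : ℝ) * (s - 1 / 2))

/-- the inverse map -/
noncomputable def iv (w : ℝ) (s : ℂ) : ℂ := (ex w s - 1) / (ex w s + 1)

lemma cay_re {ζ : ℂ} (h : ‖ζ‖ < 1) : 0 < ((1 + ζ) / (1 - ζ)).re := by
  have h1 : 1 - ζ ≠ 0 := by
    intro h0
    have : ζ = 1 := (sub_eq_zero.1 h0).symm
    rw [this, norm_one] at h
    exact lt_irrefl _ h
  rw [Complex.div_re, ← add_div]
  have h2 : 0 < Complex.normSq (1 - ζ) := Complex.normSq_pos.2 h1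
  apply div_pos _ h2
  have h3 : ζ.re ^ 2 + ζ.im ^ 2 < 1 := by
    have := Complex.sq_norm ζ
    rw [Complex.normSq_apply] at this
    nlinarith [norm_nonneg ζ]
  simp only [Complex.add_re, Complex.add_im, Complex.sub_re, Complex.sub_im, Complex.one_re, Complex.one_im]
  nlinarith

lemma one_sub_ne {ζ : ℂ} (h : ‖ζ‖ < 1) : 1 - ζ ≠ 0 := by
  intro h0
  have : ζ = 1 := (sub_eq_zero.1 h0).symm
  rw [this, norm_one] at h
  exact lt_irrefl _ h

lemma one_add_ne {ζ : ℂ} (h : ‖ζ‖ < 1) : 1 + ζ ≠ 0 := by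
  intro h0
  have : ζ = -1 := by linear_combination h0
  rw [this, norm_neg, norm_one] at h
  exact lt_irrefl _ h

lemma mp_deriv (w : ℝ) {ζ : ℂ} (h : ‖ζ‖ < 1) :
    HasDerivAt (mp w) (-(I * (w / Real.pi : ℝ)) * ((2 / (1 - ζ) ^ 2) / ((1 + ζ) / (1 - ζ)))) ζ := by
  have h1 := one_sub_ne h
  have hc : HasDerivAt (fun ζ : ℂ => (1 + ζ) / (1 - ζ)) (2 / (1 - ζ) ^ 2) ζ := by
    have h2 : HasDerivAt (fun ζ : ℂ => 1 + ζ) 1 ζ := by simpa using (hasDerivAt_id ζ).const_add 1
    have h3 : HasDerivAt (fun ζ : ℂ => 1 - ζ) (-1) ζ := by simpa using (hasDerivAt_id ζ).const_sub 1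
    have h4 := h2.div h3 h1
    have e : (2 : ℂ) / (1 - ζ) ^ 2 = (1 * (1 - ζ) - (1 + ζ) * -1) / (1 - ζ) ^ 2 := by
      congr 1; ring
    rw [e]
    exact h4
  exact ((hc.clog (Or.inl (cay_re h))).const_mul _).const_add _

lemma mp_strip {w : ℝ} (hw : 0 < w) {ζ : ℂ} (h : ‖ζ‖ < 1) : |(mp w ζ).re - 1 / 2| < w / 2 := by
  have e : (mp w ζ).re - 1 / 2 = w / Real.pi * ((1 + ζ) / (1 - ζ)).arg := by
    unfold mp
    rw [Complex.add_re, neg_mul, mul_assoc, Complex.neg_re, Complex.I_mul_re, Complex.im_ofReal_mul,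
      Complex.log_im]
    norm_num
  have h2 : |((1 + ζ) / (1 - ζ)).arg| < Real.pi / 2 := by
    rw [Complex.abs_arg_lt_pi_div_two_iff]
    left; exact cay_re h
  have hpi := Real.pi_pos
  rw [e, abs_mul, abs_of_pos (by positivity : 0 < w / Real.pi)]
  calc w / Real.pi * |((1 + ζ) / (1 - ζ)).arg| < w / Real.pi * (Real.pi / 2) := by
        apply mul_lt_mul_of_pos_left h2 (by positivity)
    _ = w / 2 := by field_simp

lemma ex_re_im (w : ℝ) (s : ℂ) : ex w s = Complex.exp (((-(Real.pi / w * s.im) : ℝ) : ℂ) +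
    ((Real.pi / w * (s.re - 1 / 2) : ℝ) : ℂ) * I) := by
  unfold ex
  congr 1
  apply Complex.ext
  · simp
  · simp

lemma ex_eqs (w : ℝ) (s : ℂ) : (ex w s).re = Real.exp (-(Real.pi / w * s.im)) * Real.cos (Real.pi / w * (s.re - 1 / 2)) ∧
    ‖ex w s‖ = Real.exp (-(Real.pi / w * s.im)) := by
  rw [ex_re_im]
  constructor
  · rw [Complex.exp_re]; simp
  · rw [Complex.norm_exp]; simp

lemma angle {w η : ℝ} (hw : 1 ≤ w) (hη : 0 < η) (hη2 : η ≤ 1 / 2) {s : ℂ} (h1 : η ≤ s.re) (h2 : s.re ≤ 1 - η) :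
    2 * η ≤ Real.cos (Real.pi / w * (s.re - 1 / 2)) := by
  have hpi := Real.pi_pos
  have hb : |Real.pi / w * (s.re - 1 / 2)| ≤ Real.pi * (1 / 2 - η) := by
    rw [abs_mul, abs_of_pos (by positivity : 0 < Real.pi / w)]
    have h3 : Real.pi / w ≤ Real.pi := div_le_self hpi.le hw
    have h4 : |s.re - 1 / 2| ≤ 1 / 2 - η := by rw [abs_le]; constructor <;> linarith
    exact mul_le_mul h3 h4 (abs_nonneg _) hpi.le
  rw [← Real.cos_abs]
  have h5 : Real.cos (Real.pi * (1 / 2 - η)) ≤ Real.cos |Real.pi / w * (s.re - 1 / 2)| :=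
    Real.cos_le_cos_of_nonneg_of_le_pi (abs_nonneg _) (by nlinarith) hb
  refine le_trans ?_ h5
  have e : Real.pi * (1 / 2 - η) = Real.pi / 2 - Real.pi * η := by ring
  rw [e, Real.cos_pi_div_two_sub]
  have h6 := Real.mul_le_sin (x := Real.pi * η) (by positivity) (by nlinarith)
  refine le_trans (le_of_eq ?_) h6
  field_simp

lemma iv_props {w η W : ℝ} (hw : 1 ≤ w) (hη : 0 < η) (hη2 : η ≤ 1 / 2) {s : ℂ} (h1 : η ≤ s.re) (h2 : s.re ≤ 1 - η)
    (hs : |s.im| ≤ W) :
    mp w (iv w s) = s ∧ ‖iv w s‖ ≤ Real.exp (-(η * Real.exp (-(4 * W)) / 2)) := by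
  have hpi := Real.pi_pos
  have hw0 : 0 < w := by linarith
  have hcos := angle hw hη hη2 h1 h2
  obtain ⟨hre, hnm⟩ := ex_eqs w s
  set E := ex w s with hE
  set r := Real.exp (-(Real.pi / w * s.im)) with hr
  set c := Real.cos (Real.pi / w * (s.re - 1 / 2)) with hc
  have hr0 : 0 < r := Real.exp_pos _
  have hc1 : c ≤ 1 := Real.cos_le_one _
  have hc0 : 0 < c := by linarith
  have hEre : 0 < E.re := by rw [hre]; positivity
  have hE1 : E + 1 ≠ 0 := by
    intro h
    have := congrArg Complex.re h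
    simp at this
    linarith
  have hnE : Complex.normSq E = r ^ 2 := by rw [Complex.normSq_eq_norm_sq, hnm]
  constructor
  · unfold mp iv
    rw [← hE]
    have e1 : (1 + (E - 1) / (E + 1)) / (1 - (E - 1) / (E + 1)) = E := by
      have e2 : 1 + (E - 1) / (E + 1) = 2 * E / (E + 1) := by field_simp; ring
      have e3 : 1 - (E - 1) / (E + 1) = 2 / (E + 1) := by field_simp; ring
      rw [e2, e3]
      field_simp
    rw [e1, hE]
    unfold ex
    have him : (I * (Real.pi / w : ℝ) * (s - 1 / 2) : ℂ).im = Real.pi / w * (s.re - 1 / 2) := by simp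
    have hb : |Real.pi / w * (s.re - 1 / 2)| < Real.pi := by
      rw [abs_mul, abs_of_pos (by positivity : 0 < Real.pi / w)]
      have h3 : Real.pi / w ≤ Real.pi := div_le_self hpi.le hw
      have h4 : |s.re - 1 / 2| ≤ 1 / 2 := by rw [abs_le]; constructor <;> linarith
      calc Real.pi / w * |s.re - 1 / 2| ≤ Real.pi * (1 / 2) := mul_le_mul h3 h4 (abs_nonneg _) hpi.le
        _ < Real.pi := by linarith
    rw [Complex.log_exp (by rw [him]; exact (abs_lt.1 hb).1) (by rw [him]; exact (abs_lt.1 hb).2.le)]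
    push_cast
    have hwc : (w : ℂ) ≠ 0 := by exact_mod_cast hw0.ne'
    have hpc : (Real.pi : ℂ) ≠ 0 := by exact_mod_cast hpi.ne'
    field_simp
    linear_combination (-(s * 2 - 1)) * Complex.I_sq
  · have e1 : ‖iv w s‖ ^ 2 = (r ^ 2 + 1 - 2 * (r * c)) / (r ^ 2 + 1 + 2 * (r * c)) := by
      unfold iv
      rw [norm_div, _root_.div_pow, ← Complex.normSq_eq_norm_sq, ← Complex.normSq_eq_norm_sq, ← hE]
      congr 1
      · rw [Complex.normSq_sub, hnE, map_one, map_one, mul_one, hre]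
      · rw [Complex.normSq_add, hnE, map_one, map_one, mul_one, hre]
    have hW : 0 ≤ W := (abs_nonneg _).trans hs
    have hrlow : Real.exp (-(4 * W)) ≤ r / (r ^ 2 + 1) * 2 := by
      have h5 : |Real.pi / w * s.im| ≤ 4 * W := by
        rw [abs_mul, abs_of_pos (by positivity : 0 < Real.pi / w)]
        have h3 : Real.pi / w ≤ 4 := (div_le_self hpi.le hw).trans Real.pi_le_four
        exact mul_le_mul h3 hs (abs_nonneg _) (by norm_num)
      have h6 := abs_le.1 h5
      set t := -(Real.pi / w * s.im) with ht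
      rw [div_mul_eq_mul_div, le_div_iff₀ (by positivity), mul_add, mul_one]
      have h7 : Real.exp (-(4 * W)) * r ^ 2 ≤ r := by
        rw [hr, sq, ← mul_assoc, ← Real.exp_add]
        have : Real.exp (-(4 * W) + t) ≤ 1 := Real.exp_le_one_iff.2 (by linarith [h6.1])
        nlinarith [Real.exp_pos t]
      have h8 : Real.exp (-(4 * W)) ≤ r := by
        rw [hr]
        exact Real.exp_le_exp.2 (by linarith [h6.2])
      linarith
    have e2 : ‖iv w s‖ ^ 2 ≤ 1 - η * Real.exp (-(4 * W)) := by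
      rw [e1, div_le_iff₀ (by positivity)]
      have h5 : Real.exp (-(4 * W)) * (r ^ 2 + 1) ≤ 2 * r := by
        rw [div_mul_eq_mul_div, le_div_iff₀ (by positivity)] at hrlow
        linarith
      have h6 : Real.exp (-(4 * W)) * η * (r ^ 2 + 1) ≤ 2 * r * η := by nlinarith
      have h7 : Real.exp (-(4 * W)) ≤ 1 := Real.exp_le_one_iff.2 (by linarith)
      have h8 : Real.exp (-(4 * W)) * η * (2 * (r * c)) ≤ η * (2 * r) := by
        have h9 : Real.exp (-(4 * W)) * c ≤ 1 := by nlinarith [Real.exp_pos (-(4 * W))]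
        nlinarith [mul_le_mul_of_nonneg_left h9 (by positivity : 0 ≤ η * (2 * r))]
      have h10 : 2 * η * r ≤ r * c := by nlinarith
      nlinarith
    have h3 : ‖iv w s‖ ^ 2 ≤ (Real.exp (-(η * Real.exp (-(4 * W)) / 2))) ^ 2 := by
      rw [← Real.exp_nat_mul]
      refine e2.trans ?_
      have := Real.add_one_le_exp (-(η * Real.exp (-(4 * W))))
      refine le_trans (by linarith) (this.trans (le_of_eq ?_))
      congr 1
      push_cast
      ring
    exact le_of_sq_le_sq h3 (Real.exp_pos _).le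

lemma order_unit {f e : ℂ → ℂ} {z : ℂ} (hf : AnalyticAt ℂ f z) (he : AnalyticAt ℂ e z) (h0 : e z ≠ 0) :
    analyticOrderAt (fun w => f w * e w) z = analyticOrderAt f z := by
  have h1 : analyticOrderAt e z = 0 := he.analyticOrderAt_eq_zero.2 h0
  have h2 := analyticOrderAt_mul hf he
  rw [h1, add_zero] at h2
  exact h2

/-- **Jensen's inequality in a strip** -/
theorem jensen_strip {f : ℂ → ℂ} (hf : Differentiable ℂ f) {a η W B : ℝ} (ha : 0 < a)
    (hη : 0 < η) (hη2 : η ≤ 1 / 2) (hW : 0 ≤ W) (hB : 0 ≤ B)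
    (hb : ∀ s : ℂ, -a ≤ s.re → s.re ≤ 1 + a → ‖f s‖ ≤ Real.exp B)
    {T : Finset ℂ} (hT : ∀ z ∈ T, η ≤ z.re ∧ z.re ≤ 1 - η ∧ |z.im| ≤ W) :
    ‖f (1 / 2)‖ ≤ Real.exp (B - η * Real.exp (-(4 * W)) / 4 * ∑ z ∈ T, (analyticOrderNatAt f z : ℝ)) := by
  classical
  by_cases h0 : f (1 / 2) = 0
  · rw [h0, norm_zero]; positivity
  set w : ℝ := 1 + 2 * a with hw
  have hw1 : 1 ≤ w := by rw [hw]; linarith
  set g0 : ℝ := η * Real.exp (-(4 * W)) / 4 with hg0
  have hg0p : 0 < g0 := by positivity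
  set g : ℂ → ℂ := f ∘ mp w with hg
  have hmp0 : mp w 0 = 1 / 2 := by unfold mp; simp
  have hgc : g 0 ≠ 0 := by rw [hg, Function.comp_apply, hmp0]; exact h0
  have hgb : ∀ ζ : ℂ, ‖ζ‖ < 1 → ‖g ζ‖ ≤ Real.exp B := by
    intro ζ hζ
    have h1 := abs_lt.1 (mp_strip (by linarith : 0 < w) hζ)
    apply hb
    · have : w / 2 = 1 / 2 + a := by rw [hw]; ring
      linarith [h1.1]
    · have : w / 2 = 1 / 2 + a := by rw [hw]; ring
      linarith [h1.2]
  have hgd : DifferentiableOn ℂ g (ball 0 1) := by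
    intro ζ hζ
    have h1 : ‖ζ‖ < 1 := by simpa using hζ
    exact ((hf _).comp ζ (mp_deriv w h1).differentiableAt).differentiableWithinAt
  have hga : AnalyticOnNhd ℂ g (ball 0 1) := hgd.analyticOnNhd isOpen_ball
  set r : ℝ := Real.exp (-(2 * g0)) with hr
  set R : ℝ := Real.exp (-g0) with hR
  have hrR : r < R := Real.exp_lt_exp.2 (by linarith)
  have hR1 : R < 1 := by rw [hR, ← Real.exp_zero]; exact Real.exp_lt_exp.2 (by linarith)
  have hsub : closedBall (0 : ℂ) R ⊆ ball 0 1 := closedBall_subset_ball hR1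
  have hprop : ∀ z ∈ T, mp w (iv w z) = z ∧ ‖iv w z‖ ≤ r := by
    intro z hz
    obtain ⟨h1, h2, h3⟩ := hT z hz
    obtain ⟨h4, h5⟩ := iv_props hw1 hη hη2 h1 h2 h3
    refine ⟨h4, h5.trans (le_of_eq ?_)⟩
    rw [hr, hg0]
    congr 1
    ring
  have hr1 : r < 1 := hrR.trans hR1
  have key := jensen_ord (f := g) (c := 0) (r := r) (R := R) (M := Real.exp B) (Real.exp_pos _) hrR
    (Real.one_le_exp hB) (hga.mono hsub) hgc (fun z hz => hgb z (by simpa using hsub hz))
    (T.image (iv w)) (by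
      intro z hz
      obtain ⟨s, hs, rfl⟩ := Finset.mem_image.1 hz
      rw [mem_closedBall_zero_iff]
      exact (hprop s hs).2)
  have hinj : Set.InjOn (iv w) (T : Set ℂ) := by
    intro z hz z' hz' h
    rw [← (hprop z hz).1, ← (hprop z' hz').1, h]
  rw [Finset.sum_image hinj] at key
  have hord : ∀ z ∈ T, analyticOrderNatAt g (iv w z) = analyticOrderNatAt f z := by
    intro z hz
    obtain ⟨h1, h2⟩ := hprop z hz
    have h3 : ‖iv w z‖ < 1 := h2.trans_lt hr1
    have h4 : AnalyticAt ℂ (mp w) (iv w z) := by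
      have : DifferentiableOn ℂ (mp w) (ball 0 1) := fun ζ hζ =>
        (mp_deriv w (by simpa using hζ)).differentiableAt.differentiableWithinAt
      exact this.analyticAt (isOpen_ball.mem_nhds (by simpa using h3))
    have h5 : deriv (mp w) (iv w z) ≠ 0 := by
      rw [(mp_deriv w h3).deriv]
      have n1 := one_sub_ne h3
      have n2 := one_add_ne h3
      have n3 : ((w / Real.pi : ℝ) : ℂ) ≠ 0 := by
        have : w / Real.pi ≠ 0 := by have := Real.pi_pos; positivity
        exact_mod_cast this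
      have n4 : (2 : ℂ) ≠ 0 := two_ne_zero
      exact mul_ne_zero (neg_ne_zero.2 (mul_ne_zero I_ne_zero n3)) (div_ne_zero (div_ne_zero n4 (pow_ne_zero _ n1))
        (div_ne_zero n2 n1))
    unfold analyticOrderNatAt
    rw [hg, analyticOrderAt_comp_of_deriv_ne_zero h4 h5, h1]
  rw [Finset.sum_congr rfl (fun z hz => by rw [hord z hz])] at key
  have hlogR : Real.log (R / r) = g0 := by
    rw [hR, hr, ← Real.exp_sub, Real.log_exp]; ring
  have hn : 0 < ‖f (1 / 2)‖ := norm_pos_iff.2 h0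
  have hg00 : ‖g 0‖ = ‖f (1 / 2)‖ := by rw [hg, Function.comp_apply, hmp0]
  rw [hlogR, hg00, Real.log_div (Real.exp_pos _).ne' hn.ne', Real.log_exp, le_div_iff₀ hg0p] at key
  rw [← Real.log_le_iff_le_exp hn]
  linarith

end Pool.Agent.K4H72.SC
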