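import Mathlib
import Pool.Agent.R402.Eul
import Pool.Agent.R402.Vm
import Pool.Agent.R402.W4
import Pool.Agent.H855R2.SF.Base
import Pool.Agent.H855R2.SF.Gam

/-!
Lower bounds for quotients of gamma factors.
-/

set_option autoImplicit false

open Complex Set

namespace Pool.Agent.K4H72.SC

/-- lower bound for the quotient of Gamma functions, in terms of the distance to the imaginary
axis -/
theorem gamma_low {ζ : ℂ} {y ρ : ℝ} (hy0 : 1 / 2 ≤ y) (hy1 : y ≤ 1) (hρ : 0 < ρ) (hζ : ρ ≤ |ζ.re|)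
    (hζ2 : -(1 / 2) < ζ.re) :
    ‖ζ‖ ^ y * ‖Complex.Gamma ζ‖ ≤ 2 * (1 + 2 / ρ) * ‖Complex.Gamma (ζ + y)‖ := by
  have hζn : ρ ≤ ‖ζ‖ := hζ.trans (Complex.abs_re_le_norm ζ)
  have hζ0 : ζ ≠ 0 := by
    intro h
    rw [h, norm_zero] at hζn
    linarith
  have hζ1 : ζ + 1 ≠ 0 := by
    intro h
    have := congrArg Complex.re h
    simp at this
    linarith
  have hζy : ζ + y ≠ 0 := by
    intro h
    have := congrArg Complex.re h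
    simp at this
    linarith
  have e1 : Complex.Gamma (ζ + 1 + 1) = (ζ + 1) * (ζ * Complex.Gamma ζ) := by
    rw [Complex.Gamma_add_one _ hζ1, Complex.Gamma_add_one _ hζ0]
  have e2 : Complex.Gamma (ζ + y + 1) = (ζ + y) * Complex.Gamma (ζ + y) :=
    Complex.Gamma_add_one _ hζy
  have h1 := H855R2.SF.gamma_quot (z := ζ + y + 1) (y := 1 - y) (by linarith) (by linarith)
    (by simp; linarith)
  have e3 : ζ + y + 1 + ((1 - y : ℝ) : ℂ) = ζ + 1 + 1 := by push_cast; ring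
  rw [e3, e1, e2, norm_mul, norm_mul, norm_mul] at h1
  have h2 : ‖ζ + y‖ ≤ ‖ζ + 1‖ := by
    apply le_of_sq_le_sq _ (norm_nonneg _)
    have e4 := H855R2.SF.norm_add_sq ζ 1
    rw [H855R2.SF.norm_add_sq]
    push_cast at e4
    rw [e4]
    nlinarith
  have hn : 0 < ‖ζ‖ := norm_pos_iff.2 hζ0
  have hny : 0 < ‖ζ + y‖ := norm_pos_iff.2 hζy
  have hG : 0 ≤ ‖Complex.Gamma ζ‖ := norm_nonneg _
  have hGy : 0 ≤ ‖Complex.Gamma (ζ + y)‖ := norm_nonneg _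
  have h3 : ‖ζ‖ * ‖Complex.Gamma ζ‖ ≤ 2 * ‖ζ + y + 1‖ ^ (1 - y) * ‖Complex.Gamma (ζ + y)‖ := by
    have h4 : ‖ζ + y‖ * (‖ζ‖ * ‖Complex.Gamma ζ‖) ≤
        ‖ζ + y‖ * (2 * ‖ζ + y + 1‖ ^ (1 - y) * ‖Complex.Gamma (ζ + y)‖) := by
      calc ‖ζ + y‖ * (‖ζ‖ * ‖Complex.Gamma ζ‖) ≤ ‖ζ + 1‖ * (‖ζ‖ * ‖Complex.Gamma ζ‖) := by
            gcongr
        _ ≤ _ := h1
        _ = _ := by ring
    exact le_of_mul_le_mul_left h4 hny
  have h5 : ‖ζ + y + 1‖ ≤ ‖ζ‖ * (1 + 2 / ρ) := by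
    have h6 : ‖ζ + y + 1‖ ≤ ‖ζ‖ + y + 1 := by
      refine (norm_add_le _ _).trans ?_
      have := norm_add_le ζ (y : ℂ)
      rw [Complex.norm_real, Real.norm_of_nonneg (by linarith)] at this
      rw [norm_one]
      linarith
    have h7 : 2 ≤ ‖ζ‖ * (2 / ρ) := by
      rw [mul_div_assoc', le_div_iff₀ hρ]
      nlinarith
    nlinarith
  have h8 : ‖ζ + y + 1‖ ^ (1 - y) ≤ ‖ζ‖ ^ (1 - y) * (1 + 2 / ρ) := by
    have hr : 1 ≤ 1 + 2 / ρ := by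
      have : 0 ≤ 2 / ρ := by positivity
      linarith
    calc ‖ζ + y + 1‖ ^ (1 - y) ≤ (‖ζ‖ * (1 + 2 / ρ)) ^ (1 - y) :=
          Real.rpow_le_rpow (norm_nonneg _) h5 (by linarith)
      _ = ‖ζ‖ ^ (1 - y) * (1 + 2 / ρ) ^ (1 - y) := Real.mul_rpow hn.le (by linarith)
      _ ≤ ‖ζ‖ ^ (1 - y) * (1 + 2 / ρ) ^ (1:ℝ) := by
          apply mul_le_mul_of_nonneg_left _ (Real.rpow_nonneg hn.le _)
          exact Real.rpow_le_rpow_of_exponent_le hr (by linarith)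
      _ = _ := by rw [Real.rpow_one]
  have h9 : ‖ζ‖ ^ (1 - y) * (‖ζ‖ ^ y * ‖Complex.Gamma ζ‖) ≤
      ‖ζ‖ ^ (1 - y) * (2 * (1 + 2 / ρ) * ‖Complex.Gamma (ζ + y)‖) := by
    calc ‖ζ‖ ^ (1 - y) * (‖ζ‖ ^ y * ‖Complex.Gamma ζ‖) = ‖ζ‖ * ‖Complex.Gamma ζ‖ := by
          rw [← mul_assoc, ← Real.rpow_add hn]
          norm_num
      _ ≤ 2 * ‖ζ + y + 1‖ ^ (1 - y) * ‖Complex.Gamma (ζ + y)‖ := h3
      _ ≤ 2 * (‖ζ‖ ^ (1 - y) * (1 + 2 / ρ)) * ‖Complex.Gamma (ζ + y)‖ := by gcongr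
      _ = _ := by ring
  exact le_of_mul_le_mul_left h9 (Real.rpow_pos_of_pos hn _)

/-- lower bound for the quotient of the archimedean factors -/
theorem gammaR_low {w : ℂ} {y ρ : ℝ} (hy0 : 1 / 2 ≤ y) (hy1 : y ≤ 1) (hρ : 0 < ρ) (hw : ρ ≤ |w.re|)
    (hw2 : -1 < w.re) :
    ‖w‖ ^ y / (16 * (1 + 4 / ρ)) * ‖Gammaℝ w‖ ≤ ‖Gammaℝ (w + 2 * y)‖ := by
  have hpi := Real.pi_pos
  have hre : (w / 2).re = w.re / 2 := by simp
  have h1 := gamma_low (ζ := w / 2) (y := y) (ρ := ρ / 2) hy0 hy1 (by positivity)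
    (by rw [hre, abs_div, abs_two]; linarith) (by rw [hre]; linarith)
  have e0 : w / 2 + y = (w + 2 * y) / 2 := by ring
  have e0' : 2 / (ρ / 2) = 4 / ρ := by field_simp; norm_num
  rw [e0, e0'] at h1
  have hnw : ‖w / 2‖ = ‖w‖ / 2 := by rw [norm_div]; simp
  rw [hnw, Real.div_rpow (norm_nonneg _) (by norm_num)] at h1
  rw [Gammaℝ_def, Gammaℝ_def, norm_mul, norm_mul,
    Complex.norm_cpow_eq_rpow_re_of_pos hpi, Complex.norm_cpow_eq_rpow_re_of_pos hpi]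
  have e2 : (-(w + 2 * (y:ℂ)) / 2).re = -y + (-w / 2).re := by
    simp; ring
  rw [e2, Real.rpow_add hpi]
  have h2 : (2:ℝ) ^ y ≤ 2 := by
    calc (2:ℝ) ^ y ≤ 2 ^ (1:ℝ) := Real.rpow_le_rpow_of_exponent_le (by norm_num) hy1
      _ = 2 := by norm_num
  have h3 : 1 / 4 ≤ Real.pi ^ (-y) := by
    have h4 : Real.pi ^ (-(1:ℝ)) ≤ Real.pi ^ (-y) :=
      Real.rpow_le_rpow_of_exponent_le (by linarith [Real.pi_gt_three]) (by linarith)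
    rw [Real.rpow_neg_one] at h4
    refine le_trans ?_ h4
    rw [← one_div]
    apply one_div_le_one_div_of_le hpi
    linarith [Real.pi_lt_four]
  have hp : 0 < Real.pi ^ (-w / 2).re := Real.rpow_pos_of_pos hpi _
  have h2p : 0 < (2:ℝ) ^ y := by positivity
  have hR : 0 < 1 + 4 / ρ := by positivity
  have h5 : ‖w‖ ^ y * ‖Complex.Gamma (w / 2)‖ ≤ 4 * (1 + 4 / ρ) * ‖Complex.Gamma ((w + 2 * y) / 2)‖ := by
    have h6 : ‖w‖ ^ y * ‖Complex.Gamma (w / 2)‖ =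
        2 ^ y * (‖w‖ ^ y / 2 ^ y * ‖Complex.Gamma (w / 2)‖) := by
      field_simp
    rw [h6]
    calc 2 ^ y * (‖w‖ ^ y / 2 ^ y * ‖Complex.Gamma (w / 2)‖) ≤
          2 ^ y * (2 * (1 + 4 / ρ) * ‖Complex.Gamma ((w + 2 * y) / 2)‖) := by gcongr
      _ ≤ 2 * (2 * (1 + 4 / ρ) * ‖Complex.Gamma ((w + 2 * y) / 2)‖) := by gcongr
      _ = _ := by ring
  have h7 : ‖w‖ ^ y / (16 * (1 + 4 / ρ)) * (Real.pi ^ (-w / 2).re * ‖Complex.Gamma (w / 2)‖) =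
      Real.pi ^ (-w / 2).re * ((‖w‖ ^ y * ‖Complex.Gamma (w / 2)‖) / (16 * (1 + 4 / ρ))) := by
    ring
  rw [h7]
  calc Real.pi ^ (-w / 2).re * ((‖w‖ ^ y * ‖Complex.Gamma (w / 2)‖) / (16 * (1 + 4 / ρ))) ≤
        Real.pi ^ (-w / 2).re * ((4 * (1 + 4 / ρ) * ‖Complex.Gamma ((w + 2 * y) / 2)‖) /
          (16 * (1 + 4 / ρ))) := by gcongr
    _ = 1 / 4 * Real.pi ^ (-w / 2).re * ‖Complex.Gamma ((w + 2 * y) / 2)‖ := by
        field_simp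
        ring
    _ ≤ Real.pi ^ (-y) * Real.pi ^ (-w / 2).re * ‖Complex.Gamma ((w + 2 * y) / 2)‖ := by gcongr

end Pool.Agent.K4H72.SC
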