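import Mathlib
import Pool.Agent.R402.Eul
import Pool.Agent.R402.Vm
import Pool.Agent.R402.W4
import Pool.Agent.H855R2.SF.Dir
import Pool.Agent.K4H72.SC.Gm

/-!
# The class of standard L-functions of `GL(n)` over the rationals

(the same class as in `Pool.Agent.Results.MP_cf4097_nt.WeakSubconvexity`)
-/

set_option autoImplicit false

open scoped ArithmeticFunction.vonMangoldt

namespace Pool.Agent.K4H72.SC

/-- The data of a standard L-function of degree `n` over the rationals: the arithmetic conductor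
`q`, the archimedean parameters `μ j` (the gamma factor is `∏ j, Γ_ℝ(s + μ j)`), the Satake
parameters `α p j` at the primes `p` (some of them zero at ramified primes; the values `α m j` at
non-primes `m` play no role), the root number `w` and the L-function `L`. -/
structure StdL (n : ℕ) where
  /-- the arithmetic conductor -/
  q : ℕ
  /-- the archimedean parameters -/
  μ : Fin n → ℂ
  /-- the Satake parameters -/
  α : ℕ → Fin n → ℂ
  /-- the root number -/
  w : ℂ
  /-- the L-function -/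
  L : ℂ → ℂ

/-- The analytic conductor `Q(s) = q ∏ j, (1 + |s + μ j|)`. -/
noncomputable def StdL.cond {n : ℕ} (D : StdL n) (s : ℂ) : ℝ := D.q * ∏ j, (1 + ‖s + D.μ j‖)

/-- The coefficient `a(m)` of `- L'/L (s) = ∑ Λ(m) a(m) m^{-s}`: at a prime power `m = p^k` it is
the power sum `∑ j, (α p j)^k` of the Satake parameters (its values at other `m` play no role, as
there `Λ(m) = 0`). -/
noncomputable def StdL.a {n : ℕ} (D : StdL n) (m : ℕ) : ℂ :=
  ∑ j, D.α m.minFac j ^ (m.factorization m.minFac)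

/-- The analytic properties of the standard L-function of a unitary cuspidal automorphic
representation of `GL_n` over the rationals. They hold for all of these with `θ = 1/2 - 1/(n^2+1)`
(Luo, Rudnick, Sarnak) and `A` depending on `n` only, except for the shifts of the zeta
function in degree one, which are not entire. -/
structure StdL.IsStandard {n : ℕ} (D : StdL n) (θ A : ℝ) : Prop where
  /-- the conductor is positive -/
  q_pos : 0 < D.q
  /-- the root number has absolute value one -/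
  w_norm : ‖D.w‖ = 1
  /-- the bound for the Satake parameters -/
  satake : ∀ p : ℕ, p.Prime → ∀ j, ‖D.α p j‖ ≤ (p : ℝ) ^ θ
  /-- the bound for the archimedean parameters -/
  arch : ∀ j, -θ ≤ (D.μ j).re
  /-- the L-function is entire -/
  entire : Differentiable ℂ D.L
  /-- it has finite order in the strip `-1/4 ≤ Re s ≤ 5/4` -/
  order : ∃ B : ℝ, ∀ s : ℂ, -1 / 4 ≤ s.re → s.re ≤ 5 / 4 →
    ‖D.L s‖ ≤ Real.exp (B * (1 + |s.im|) ^ B)
  /-- the Euler product in the half plane `Re s > 1` -/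
  euler : ∀ s : ℂ, 1 < s.re →
    HasProd (fun p : Nat.Primes => ∏ j, (1 - D.α p j * ((p : ℕ) : ℂ) ^ (-s))⁻¹) (D.L s)
  /-- the functional equation, relating `L` to the dual L-function `s ↦ conj (L (conj s))` -/
  functional : ∀ s : ℂ, D.L s * ∏ j, (Complex.Gammaℝ (1 - s + (starRingEnd ℂ) (D.μ j)))⁻¹ =
    D.w * (D.q : ℂ) ^ (1 / 2 - s) * (starRingEnd ℂ) (D.L (1 - (starRingEnd ℂ) s)) *
      ∏ j, (Complex.Gammaℝ (s + D.μ j))⁻¹
  /-- the Rankin-Selberg sums converge in the half plane `σ > 1` -/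
  rankin_summable : ∀ σ : ℝ, 1 < σ → Summable fun m : ℕ => Λ m * ‖D.a m‖ ^ 2 * (m : ℝ) ^ (-σ)
  /-- the Rankin-Selberg upper bound near `σ = 1` -/
  rankin : ∀ σ : ℝ, 1 < σ → σ ≤ 2 → ∀ t : ℝ,
    ∑' m : ℕ, Λ m * ‖D.a m‖ ^ 2 * (m : ℝ) ^ (-σ) ≤
      A * (1 / (σ - 1) + Real.log (D.cond (1 / 2 + t * Complex.I)))

open Pool.Agent.R402.MeanSq Pool.Agent.R402.Ser Pool.Agent.R402.Eul

lemma one_le_cond {n : ℕ} {D : StdL n} (hq : 0 < D.q) (s : ℂ) : 1 ≤ D.cond s := by
  unfold StdL.cond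
  have h1 : (1:ℝ) ≤ D.q := by exact_mod_cast hq
  have h2 : (1:ℝ) ≤ ∏ j, (1 + ‖s + D.μ j‖) := by
    have : ∏ _j : Fin n, (1:ℝ) ≤ ∏ j, (1 + ‖s + D.μ j‖) := by
      apply Finset.prod_le_prod (fun _ _ => by norm_num)
      intro j _
      linarith [norm_nonneg (s + D.μ j)]
    simpa using this
  nlinarith

lemma P_eq {n : ℕ} (D : StdL n) (σ : ℝ) :
    P (cf D.α) σ = fun m : ℕ => Λ m * ‖D.a m‖ ^ 2 * (m : ℝ) ^ (-σ) := by
  funext m
  unfold P v cf StdL.a
  ring

lemma cond_shift {n : ℕ} (D : StdL n) (t u : ℝ) :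
    D.cond (1 / 2 + ((t + u : ℝ) : ℂ) * Complex.I) ≤
      (1 + |u|) ^ (n : ℝ) * D.cond (1 / 2 + t * Complex.I) := by
  unfold StdL.cond
  have h1 : ∏ j, (1 + ‖1 / 2 + ((t + u : ℝ) : ℂ) * Complex.I + D.μ j‖) ≤
      (1 + |u|) ^ (n:ℝ) * ∏ j, (1 + ‖1 / 2 + (t : ℂ) * Complex.I + D.μ j‖) := by
    rw [Real.rpow_natCast]
    have e : (1 + |u|) ^ n = ∏ _j : Fin n, (1 + |u|) := by simp
    rw [e, ← Finset.prod_mul_distrib]
    apply Finset.prod_le_prod (fun _ _ => by positivity)
    intro j _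
    have h2 : 1 / 2 + ((t + u : ℝ) : ℂ) * Complex.I + D.μ j =
        (1 / 2 + (t : ℂ) * Complex.I + D.μ j) + u * Complex.I := by push_cast; ring
    have h3 : ‖1 / 2 + ((t + u : ℝ) : ℂ) * Complex.I + D.μ j‖ ≤
        ‖1 / 2 + (t : ℂ) * Complex.I + D.μ j‖ + |u| := by
      rw [h2]
      refine (norm_add_le _ _).trans ?_
      rw [norm_mul, Complex.norm_real, Real.norm_eq_abs, Complex.norm_I, mul_one]
    nlinarith [norm_nonneg (1 / 2 + (t : ℂ) * Complex.I + D.μ j), abs_nonneg u,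
      mul_nonneg (norm_nonneg (1 / 2 + (t : ℂ) * Complex.I + D.μ j)) (abs_nonneg u)]
  calc (D.q:ℝ) * ∏ j, (1 + ‖1 / 2 + ((t + u : ℝ) : ℂ) * Complex.I + D.μ j‖)
      ≤ D.q * ((1 + |u|) ^ (n:ℝ) * ∏ j, (1 + ‖1 / 2 + (t : ℂ) * Complex.I + D.μ j‖)) :=
        mul_le_mul_of_nonneg_left h1 (Nat.cast_nonneg _)
    _ = _ := by ring

/-- the size of the logarithm of `L` to the right of `1 + δ` -/
lemma G_small (θ A : ℝ) (hθ : θ < 1 / 2) (n : ℕ) {δ κ : ℝ} (hδ : 0 < δ) (hδ1 : δ ≤ 1) (hκ : 0 < κ) :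
    ∃ B : ℝ, 0 ≤ B ∧ ∀ D : StdL n, D.IsStandard θ A → ∀ s : ℂ, 1 + δ ≤ s.re → ∀ t : ℝ,
      ∃ g : ℂ, D.L s = Complex.exp g ∧ ‖g‖ ≤ κ * Real.log (D.cond (1 / 2 + t * Complex.I)) + B := by
  set A' : ℝ := |A| + 1 with hA'
  have hA'0 : 0 < A' := by positivity
  set q : ℝ := A' / κ with hq
  have hq0 : 0 < q := by positivity
  refine ⟨1 / 2 * (q * (2 * C2) + q⁻¹ * (A' * (1 / δ))), ?_, fun D H s hs t => ?_⟩
  · have := C2_nonneg
    positivity
  have hP : ∀ σ : ℝ, 1 < σ → Summable (P (cf D.α) σ) := by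
    intro σ hσ
    rw [P_eq]
    exact H.rankin_summable σ hσ
  have hs1 : 1 < s.re := by linarith
  refine ⟨G (cf D.α) s.re s.im, ?_, ?_⟩
  · have h1 := H.euler s hs1
    rw [← Complex.re_add_im s] at h1
    have := euler_exp hθ H.satake hP hs1 (t := s.im) (F := D.L s) (by
      simpa using h1)
    exact this
  · refine (Pool.Agent.R402.Win.G_le_absG hs1 (hP _ hs1) s.im).trans ?_
    have hδ' : (1:ℝ) < 1 + δ := by linarith
    have h1 : Pool.Agent.R402.Win.absG (cf D.α) s.re ≤ Pool.Agent.R402.Win.absG (cf D.α) (1 + δ) := by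
      unfold Pool.Agent.R402.Win.absG
      refine (Pool.Agent.R402.Win.summ_absG hs1 (hP _ hs1)).tsum_le_tsum (fun m => ?_)
        (Pool.Agent.R402.Win.summ_absG hδ' (hP _ hδ'))
      refine mul_le_mul_of_nonneg_right ?_ (norm_nonneg _)
      refine div_le_div_of_nonneg_right ?_ (Real.log_natCast_nonneg m)
      unfold v
      refine mul_le_mul_of_nonneg_left ?_ ArithmeticFunction.vonMangoldt_nonneg
      rcases Nat.eq_zero_or_pos m with rfl | hm
      · rw [Nat.cast_zero, Real.zero_rpow (by linarith), Real.zero_rpow (by linarith)]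
      · exact Real.rpow_le_rpow_of_exponent_le (by exact_mod_cast hm) (by linarith)
    refine h1.trans ?_
    refine (Pool.Agent.R402.Win.absG_le hδ' (hP _ hδ') hq0).trans ?_
    have h2 := H.rankin (1 + δ) hδ' (by linarith) t
    rw [← P_eq] at h2
    have hlog : 0 ≤ Real.log (D.cond (1 / 2 + t * Complex.I)) := Real.log_nonneg (one_le_cond H.q_pos _)
    have h3 : ∑' m, P (cf D.α) (1 + δ) m ≤
        A' * (1 / δ) + A' * Real.log (D.cond (1 / 2 + t * Complex.I)) := by
      refine h2.trans ?_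
      have e : 1 + δ - 1 = δ := by ring
      rw [e]
      have h4 : A ≤ A' := by rw [hA']; linarith [le_abs_self A]
      have h5 : 0 ≤ 1 / δ + Real.log (D.cond (1 / 2 + t * Complex.I)) := by positivity
      nlinarith
    have h6 : q⁻¹ * ∑' m, P (cf D.α) (1 + δ) m ≤ q⁻¹ * (A' * (1 / δ)) +
        κ * Real.log (D.cond (1 / 2 + t * Complex.I)) := by
      refine (mul_le_mul_of_nonneg_left h3 (inv_nonneg.2 hq0.le)).trans (le_of_eq ?_)
      have e : q⁻¹ * A' = κ := by rw [hq]; field_simp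
      rw [mul_add, ← mul_assoc q⁻¹ A' (Real.log _), e]
    have h7 : 0 ≤ κ * Real.log (D.cond (1 / 2 + t * Complex.I)) := by positivity
    have h8 : 0 ≤ q * (2 * C2) := by
      have := C2_nonneg
      positivity
    linarith

end Pool.Agent.K4H72.SC
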