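import Pool.Agent.K4H72.SC.D

/-!
# The area bound and the number of the zeros
-/

set_option autoImplicit false

open MeasureTheory Filter Topology Set Complex

namespace Pool.Agent.K4H72.SC

lemma int_H (W : ℝ) : ∫ u in (-W)..W, H W u = 16 / 15 * W ^ 5 := by
  have e : ∀ u : ℝ, H W u = W ^ 4 - 2 * W ^ 2 * u ^ 2 + u ^ 4 := by intro u; unfold H; ring
  simp_rw [e]
  rw [intervalIntegral.integral_add (by apply Continuous.intervalIntegrable; fun_prop)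
    (by apply Continuous.intervalIntegrable; fun_prop),
    intervalIntegral.integral_sub (by apply Continuous.intervalIntegrable; fun_prop)
    (by apply Continuous.intervalIntegrable; fun_prop), intervalIntegral.integral_const_mul]
  simp only [intervalIntegral.integral_const, integral_pow, smul_eq_mul]
  ring

lemma int_H2 (W : ℝ) : ∫ u in (-W)..W, H2 W u = 0 := by
  rw [intervalIntegral.integral_eq_sub_of_hasDerivAt (fun u _ => H1_deriv W u)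
    ((H2_cont W).intervalIntegrable _ _), H1_top, H1_bot, sub_zero]

lemma H2_le {W u : ℝ} (hu : |u| ≤ W) : H2 W u ≤ 8 * W ^ 2 := by
  unfold H2
  have h1 := sq_abs u
  have h2 := abs_nonneg u
  nlinarith

lemma H2_abs {W u : ℝ} (hu : |u| ≤ W) : |H2 W u| ≤ 8 * W ^ 2 := by
  rw [abs_le]
  refine ⟨?_, H2_le hu⟩
  unfold H2
  nlinarith [sq_nonneg u, sq_nonneg W]

lemma H_le {W u : ℝ} (hu : |u| ≤ W) : H W u ≤ W ^ 4 := by
  unfold H
  have h1 := sq_abs u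
  have h2 := abs_nonneg u
  have h3 : u ^ 2 ≤ W ^ 2 := by nlinarith
  have h4 : 0 ≤ W ^ 2 - u ^ 2 := by linarith
  have h5 : W ^ 2 - u ^ 2 ≤ W ^ 2 := by nlinarith [sq_nonneg u]
  calc (W ^ 2 - u ^ 2) ^ 2 ≤ (W ^ 2) ^ 2 := pow_le_pow_left₀ h4 h5 2
    _ = W ^ 4 := by ring

/-- the weight is nonnegative -/
lemma wt_nonneg {R K u : ℝ} (hR : 3 ≤ R) (hK0 : 0 ≤ K) (hK : K ≤ 2) (hu : |u| ≤ R) :
    0 ≤ 2 * H R u + K * H2 R u := by
  unfold H H2
  have h1 := sq_abs u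
  have h2 := abs_nonneg u
  have h3 : u ^ 2 ≤ R ^ 2 := by nlinarith
  set v := u ^ 2 with hv
  have hv0 : 0 ≤ v := sq_nonneg u
  set r := R ^ 2 with hr
  have hr9 : 9 ≤ r := by nlinarith
  rcases le_total r (3 * v) with h | h
  · have : 0 ≤ K * (12 * v - 4 * r) := mul_nonneg hK0 (by linarith)
    nlinarith [sq_nonneg (r - v)]
  · have h5 : 2 / 3 * r ≤ r - v := by linarith
    have h6 : (2 / 3 * r) ^ 2 ≤ (r - v) ^ 2 := pow_le_pow_left₀ (by positivity) h5 2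
    have h7 : -(2 * (4 * r)) ≤ K * (12 * v - 4 * r) := by nlinarith [mul_nonneg hK0 hv0]
    nlinarith

/-- the weight is large in the inner window -/
lemma wt_large {W K u : ℝ} (hW : 3 ≤ 2 * W) (hK0 : 0 ≤ K) (hK : K ≤ 2) (hu : |u| ≤ W) :
    (2 * W) ^ 4 / 5 ≤ 2 * H (2 * W) u + K * H2 (2 * W) u := by
  unfold H H2
  have h1 := sq_abs u
  have h2 := abs_nonneg u
  have h3 : u ^ 2 ≤ W ^ 2 := by nlinarith
  have e : (2 * W) ^ 4 / 5 = 16 / 5 * (W ^ 2) ^ 2 := by ring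
  rw [e, show (2 * W) ^ 2 = 4 * W ^ 2 by ring]
  set v := u ^ 2 with hv
  have hv0 : 0 ≤ v := sq_nonneg u
  set r := W ^ 2 with hr
  have hr9 : 9 / 4 ≤ r := by nlinarith
  have h5 : 3 * r ≤ 4 * r - v := by linarith
  have h6 : (3 * r) ^ 2 ≤ (4 * r - v) ^ 2 := pow_le_pow_left₀ (by positivity) h5 2
  have h7 : -(2 * (4 * (4 * r))) ≤ K * (12 * v - 4 * (4 * r)) := by nlinarith [mul_nonneg hK0 hv0]
  nlinarith

/-- the hypotheses on a function, in a window -/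
structure Loc (f : ℂ → ℂ) (l κ a W : ℝ) : Prop where
  diff : Differentiable ℂ f
  l0 : 0 < l
  κ0 : 0 < κ
  a0 : 0 < a
  a1 : a ≤ 1 / 16
  W2 : 2 ≤ W
  κa : κ ≤ a / 100
  crude : ∀ x u : ℝ, -1 / 8 ≤ x → x ≤ 1 + 2 * a → |u| ≤ 2 * W → ‖f (x + u * I)‖ ≤ Real.exp (2 * l)
  conv : ∀ x u : ℝ, -a ≤ x → x ≤ 1 + a → |u| ≤ W → ‖f (x + u * I)‖ ≤ Real.exp (((1 + a - x) / 2 + κ) * l)
  right1 : ∀ x u : ℝ, 1 + a ≤ x → x ≤ 1 + 2 * a → |u| ≤ 2 * W → Real.exp (-(κ * l)) ≤ ‖f (x + u * I)‖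
  right2 : ∀ x u : ℝ, 1 + a ≤ x → x ≤ 1 + 2 * a → |u| ≤ 2 * W → ‖f (x + u * I)‖ ≤ Real.exp (κ * l)
  left : ∀ u : ℝ, |u| ≤ W → Real.exp ((1 / 2 + a - κ) * l) ≤ ‖f (((-a : ℝ) : ℂ) + u * I)‖

variable {f : ℂ → ℂ} {l κ a W : ℝ}

lemma Loc.ne (h : Loc f l κ a W) : ∃ z, f z ≠ 0 := by
  refine ⟨((1 + a : ℝ) : ℂ) + (0 : ℝ) * I, fun h0 => ?_⟩
  have h1 := h.right1 (1 + a) 0 le_rfl (by linarith [h.a0]) (by simp; linarith [h.W2])
  rw [h0, norm_zero] at h1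
  linarith [Real.exp_pos (-(κ * l))]

lemma log_le_of {b c : ℝ} (h : b ≤ Real.exp c) (hc : 0 ≤ c) (hb : 0 ≤ b) : Real.log b ≤ c := by
  rcases eq_or_lt_of_le hb with h0 | h0
  · rw [← h0, Real.log_zero]; exact hc
  · exact (Real.log_le_iff_le_exp h0).2 h

/-- integral bounds -/
lemma J_le {w : ℝ → ℝ} (hw : Continuous w) {f : ℂ → ℂ} {W x c : ℝ} (hW : 0 ≤ W)
    (hi : IntervalIntegrable (fun u : ℝ => w u * Real.log ‖f (x + u * I)‖) volume (-W) W)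
    (hw0 : ∀ u, |u| ≤ W → 0 ≤ w u) (hb : ∀ u, |u| ≤ W → Real.log ‖f (x + u * I)‖ ≤ c) :
    J w W f x ≤ c * ∫ u in (-W)..W, w u := by
  unfold J
  rw [← intervalIntegral.integral_const_mul]
  refine intervalIntegral.integral_mono_on (by linarith) hi ((hw.const_smul c).intervalIntegrable _ _) fun u hu => ?_
  have h1 : |u| ≤ W := abs_le.2 hu
  rw [mul_comm c]
  exact mul_le_mul_of_nonneg_left (hb u h1) (hw0 u h1)

lemma le_J {w : ℝ → ℝ} (hw : Continuous w) {f : ℂ → ℂ} {W x c : ℝ} (hW : 0 ≤ W)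
    (hi : IntervalIntegrable (fun u : ℝ => w u * Real.log ‖f (x + u * I)‖) volume (-W) W)
    (hw0 : ∀ u, |u| ≤ W → 0 ≤ w u) (hb : ∀ u, |u| ≤ W → c ≤ Real.log ‖f (x + u * I)‖) :
    c * (∫ u in (-W)..W, w u) ≤ J w W f x := by
  unfold J
  rw [← intervalIntegral.integral_const_mul]
  refine intervalIntegral.integral_mono_on (by linarith) ((hw.const_smul c).intervalIntegrable _ _) hi fun u hu => ?_
  have h1 : |u| ≤ W := abs_le.2 hu
  rw [mul_comm c]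
  exact mul_le_mul_of_nonneg_left (hb u h1) (hw0 u h1)

end Pool.Agent.K4H72.SC
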