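import Mathlib
import Pool.Agent.K4H72.SC.Cls
import Pool.Agent.K4H72.SC.E

/-!
Uniform bounds in the class of standard L-functions.
-/

set_option autoImplicit false

open Complex Set

namespace Pool.Agent.K4H72.SC

open Pool.Agent.R402.Eul

/-- the constant in the lower bound on the left -/
noncomputable def cL (ρ W : ℝ) : ℝ := 1 / (16 * (1 + 4 / ρ) * (1 + (2 + W) / ρ))

lemma cL_pos {ρ W : ℝ} (hρ : 0 < ρ) (hW : 0 ≤ W) : 0 < cL ρ W := by
  unfold cL; positivity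

lemma norm_Gammaℝ_conj (z : ℂ) : ‖Gammaℝ ((starRingEnd ℂ) z)‖ = ‖Gammaℝ z‖ := by
  rw [Gammaℝ_def, Gammaℝ_def, norm_mul, norm_mul,
    Complex.norm_cpow_eq_rpow_re_of_pos Real.pi_pos, Complex.norm_cpow_eq_rpow_re_of_pos Real.pi_pos]
  have e3 : (-(starRingEnd ℂ) z / 2).re = (-z / 2).re := by simp
  have e4 : (starRingEnd ℂ) z / 2 = (starRingEnd ℂ) (z / 2) := by
    rw [map_div₀, map_ofNat]
  rw [e3, e4, Complex.Gamma_conj, Complex.norm_conj]

/-- lower bound on the line `Re s = -a`, away from the trivial zeros -/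
theorem left_low {n : ℕ} {D : StdL n} {θ A : ℝ} (hθ : θ < 1 / 2) (H : D.IsStandard θ A)
    {a ρ W : ℝ} (ha : 0 < a) (ha1 : a ≤ 1 / 2) (hρ : 0 < ρ) (hW : 0 ≤ W)
    (hμ : ∀ j, ρ ≤ |(D.μ j).re - a|) (t : ℝ) {u : ℝ} (hu : |u| ≤ W) :
    cL ρ W ^ n * D.cond (1 / 2 + t * I) ^ (1 / 2 + a) *
      ‖D.L (((1 + a : ℝ) : ℂ) + u * I + t * I)‖ ≤ ‖D.L (((-a : ℝ) : ℂ) + u * I + t * I)‖ := by
  set s : ℂ := ((-a : ℝ) : ℂ) + u * I + t * I with hs
  have hsre : s.re = -a := by simp [hs]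
  have hsim : s.im = u + t := by simp [hs]
  have h := H.functional s
  have e1 : 1 - (starRingEnd ℂ) s = ((1 + a : ℝ) : ℂ) + u * I + t * I := by
    apply Complex.ext
    · simp [hs]
    · simp [hs]; ring
  rw [e1] at h
  set y : ℝ := 1 / 2 + a with hy
  have e5 : ∀ j, 1 - s + (starRingEnd ℂ) (D.μ j) = (starRingEnd ℂ) (s + D.μ j + 2 * y) := by
    intro j
    apply Complex.ext
    · simp [hs, hy]; ring
    · simp [hs]; ring
  have hre : ∀ j, (s + D.μ j).re = (D.μ j).re - a := by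
    intro j; rw [add_re, hsre]; ring
  have hgt : ∀ j, -1 < (s + D.μ j).re := by
    intro j; rw [hre]; linarith [H.arch j]
  have hne1 : ∀ j, 0 < ‖Gammaℝ (s + D.μ j)‖ := by
    intro j
    rw [norm_pos_iff]
    intro h0
    rw [Gammaℝ_eq_zero_iff] at h0
    obtain ⟨k, hk⟩ := h0
    have h1 := congrArg Complex.re hk
    simp only [neg_re, mul_re, re_ofNat, natCast_re, im_ofNat, natCast_im, mul_zero, sub_zero] at h1
    have h2 := hgt j
    rw [h1] at h2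
    have h3 : k = 0 := by
      by_contra hk0
      have : (1:ℝ) ≤ k := by exact_mod_cast Nat.one_le_iff_ne_zero.2 hk0
      linarith
    rw [h3] at h1
    have h4 := hμ j
    rw [← hre, h1] at h4
    simp at h4
    linarith
  have hpos : ∀ j, 0 < (s + D.μ j + 2 * y).re := by
    intro j
    have e : (s + D.μ j + 2 * (y:ℂ)).re = (s + D.μ j).re + 2 * y := by simp
    rw [e, hy]
    linarith [hgt j]
  have hne2 : ∀ j, 0 < ‖Gammaℝ (s + D.μ j + 2 * y)‖ := fun j =>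
    norm_pos_iff.2 (Gammaℝ_ne_zero_of_re_pos (hpos j))
  have hn := congrArg norm h
  rw [norm_mul, norm_mul, norm_mul, norm_mul, H.w_norm, one_mul, norm_conj, norm_prod, norm_prod] at hn
  have e2 : ∏ j, ‖(Gammaℝ (1 - s + (starRingEnd ℂ) (D.μ j)))⁻¹‖ =
      (∏ j, ‖Gammaℝ (s + D.μ j + 2 * y)‖)⁻¹ := by
    rw [← Finset.prod_inv_distrib]
    apply Finset.prod_congr rfl
    intro j _
    rw [norm_inv, e5, norm_Gammaℝ_conj]
  have e3 : ‖(D.q:ℂ) ^ (1 / 2 - s)‖ = (D.q:ℝ) ^ y := by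
    rw [Complex.norm_natCast_cpow_of_pos H.q_pos]
    congr 1
    rw [sub_re, hsre, hy]; simp
  have e4 : ∏ j, ‖(Gammaℝ (s + D.μ j))⁻¹‖ = (∏ j, ‖Gammaℝ (s + D.μ j)‖)⁻¹ := by
    rw [← Finset.prod_inv_distrib]
    apply Finset.prod_congr rfl
    intro j _
    rw [norm_inv]
  set P2 : ℝ := ∏ j, ‖Gammaℝ (s + D.μ j + 2 * y)‖ with hP2
  set P1 : ℝ := ∏ j, ‖Gammaℝ (s + D.μ j)‖ with hP1
  have hP2p : 0 < P2 := Finset.prod_pos fun j _ => hne2 j
  have hP1p : 0 < P1 := Finset.prod_pos fun j _ => hne1 j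
  rw [e2, e3, e4, ← div_eq_mul_inv, ← div_eq_mul_inv, div_eq_div_iff hP2p.ne' hP1p.ne'] at hn
  -- the product of the gamma quotients
  have hc := cL_pos hρ hW
  have hterm : ∀ j, cL ρ W * (1 + ‖1 / 2 + (t:ℂ) * I + D.μ j‖) ^ y * ‖Gammaℝ (s + D.μ j)‖ ≤
      ‖Gammaℝ (s + D.μ j + 2 * y)‖ := by
    intro j
    have g1 := gammaR_low (w := s + D.μ j) (y := y) (by rw [hy]; linarith) (by rw [hy]; linarith)
      hρ (by rw [hre]; exact hμ j) (hgt j)
    refine le_trans ?_ g1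
    apply mul_le_mul_of_nonneg_right _ (norm_nonneg _)
    set w := s + D.μ j with hw
    have hwn : ρ ≤ ‖w‖ := by
      have := Complex.abs_re_le_norm w
      rw [hre] at this
      exact (hμ j).trans this
    have hwp : 0 < ‖w‖ := lt_of_lt_of_le hρ hwn
    have g2 : 1 + ‖1 / 2 + (t:ℂ) * I + D.μ j‖ ≤ ‖w‖ * (1 + (2 + W) / ρ) := by
      have g3 : 1 / 2 + (t:ℂ) * I + D.μ j = w + (((1 / 2 + a : ℝ) : ℂ) - u * I) := by
        rw [hw, hs]; push_cast; ring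
      have g4 : ‖((1 / 2 + a : ℝ) : ℂ) - u * I‖ ≤ 1 + W := by
        refine (norm_sub_le _ _).trans ?_
        rw [norm_mul, Complex.norm_real, Complex.norm_real, norm_I, mul_one, Real.norm_eq_abs,
          Real.norm_eq_abs, abs_of_pos (by linarith)]
        linarith
      have g5 := norm_add_le w (((1 / 2 + a : ℝ) : ℂ) - u * I)
      rw [← g3] at g5
      have g6 : 2 + W ≤ ‖w‖ * ((2 + W) / ρ) := by
        rw [mul_div_assoc', le_div_iff₀ hρ]
        nlinarith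
      nlinarith
    have hR1 : 1 ≤ 1 + (2 + W) / ρ := by
      have : 0 ≤ (2 + W) / ρ := by positivity
      linarith
    have g7 : (1 + ‖1 / 2 + (t:ℂ) * I + D.μ j‖) ^ y ≤ ‖w‖ ^ y * (1 + (2 + W) / ρ) := by
      calc (1 + ‖1 / 2 + (t:ℂ) * I + D.μ j‖) ^ y ≤ (‖w‖ * (1 + (2 + W) / ρ)) ^ y :=
            Real.rpow_le_rpow (by positivity) g2 (by rw [hy]; linarith)
        _ = ‖w‖ ^ y * (1 + (2 + W) / ρ) ^ y := Real.mul_rpow hwp.le (by linarith)
        _ ≤ ‖w‖ ^ y * (1 + (2 + W) / ρ) ^ (1:ℝ) := by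
            apply mul_le_mul_of_nonneg_left _ (Real.rpow_nonneg hwp.le _)
            exact Real.rpow_le_rpow_of_exponent_le hR1 (by rw [hy]; linarith)
        _ = _ := by rw [Real.rpow_one]
    have hR : 0 < 1 + 4 / ρ := by positivity
    have hR2 : 0 < 1 + (2 + W) / ρ := by linarith
    calc cL ρ W * (1 + ‖1 / 2 + (t:ℂ) * I + D.μ j‖) ^ y ≤
          cL ρ W * (‖w‖ ^ y * (1 + (2 + W) / ρ)) := by gcongr
      _ = _ := by
          unfold cL
          field_simp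
  have hprod : cL ρ W ^ n * (∏ j, (1 + ‖1 / 2 + (t:ℂ) * I + D.μ j‖)) ^ y * P1 ≤ P2 := by
    rw [← Real.finsetProd_rpow _ _ (fun j _ => by positivity)]
    have e6 : cL ρ W ^ n = ∏ _j : Fin n, cL ρ W := by simp
    rw [e6, ← Finset.prod_mul_distrib, hP1, ← Finset.prod_mul_distrib]
    apply Finset.prod_le_prod (fun j _ => by positivity)
    intro j _
    exact hterm j
  have hPnn : 0 ≤ ∏ j, (1 + ‖1 / 2 + (t:ℂ) * I + D.μ j‖) := Finset.prod_nonneg fun j _ => by positivity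
  unfold StdL.cond
  rw [Real.mul_rpow (Nat.cast_nonneg _) hPnn]
  have hfin : cL ρ W ^ n * ((D.q:ℝ) ^ y * (∏ j, (1 + ‖1 / 2 + (t:ℂ) * I + D.μ j‖)) ^ y) *
      ‖D.L (((1 + a : ℝ) : ℂ) + u * I + t * I)‖ * P1 ≤ ‖D.L s‖ * P1 := by
    rw [hn]
    calc cL ρ W ^ n * ((D.q:ℝ) ^ y * (∏ j, (1 + ‖1 / 2 + (t:ℂ) * I + D.μ j‖)) ^ y) *
          ‖D.L (((1 + a : ℝ) : ℂ) + u * I + t * I)‖ * P1 =
        (D.q:ℝ) ^ y * ‖D.L (((1 + a : ℝ) : ℂ) + u * I + t * I)‖ *
          (cL ρ W ^ n * (∏ j, (1 + ‖1 / 2 + (t:ℂ) * I + D.μ j‖)) ^ y * P1) := by ring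
      _ ≤ (D.q:ℝ) ^ y * ‖D.L (((1 + a : ℝ) : ℂ) + u * I + t * I)‖ * P2 := by gcongr
  exact le_of_mul_le_mul_right hfin hP1p

/-- the family of standard L-functions -/
theorem afam (n : ℕ) (θ A : ℝ) (hθ : θ < 1 / 2) :
    H855R2.SF.AFam (ι := {D : StdL n // D.IsStandard θ A}) (n : ℝ) (fun i => i.1.L)
      (fun i t => i.1.cond (1 / 2 + t * I)) := by
  refine ⟨Nat.cast_nonneg n, fun i t => one_le_cond i.2.q_pos _, fun i t u => cond_shift _ t u,
    fun i => i.2.entire, fun i => i.2.order, ?_, ?_⟩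
  · intro δ hδ
    obtain ⟨B, hB0, hB⟩ := G_small θ A hθ n (δ := min δ 1) (κ := δ) (lt_min hδ one_pos)
      (min_le_right _ _) hδ
    refine ⟨Real.exp B, fun i s hs => ?_⟩
    obtain ⟨g, hg1, hg2⟩ := hB i.1 i.2 s (by linarith [min_le_left δ 1]) s.im
    have hQ := one_le_cond i.2.q_pos (1 / 2 + s.im * I)
    rw [hg1, Complex.norm_exp]
    calc Real.exp g.re ≤ Real.exp (δ * Real.log (i.1.cond (1 / 2 + s.im * I)) + B) :=
          Real.exp_le_exp.2 ((Complex.re_le_norm _).trans hg2)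
      _ = _ := by
          rw [Real.exp_add, Real.rpow_def_of_pos (by linarith), mul_comm (Real.exp B), mul_comm δ]
  · refine ⟨24 ^ n, by positivity, fun i x t hx0 hx1 => ?_⟩
    have h1 := refl_at i.2.q_pos i.1.μ (fun j => by linarith [i.2.arch j]) i.2.w_norm
      i.2.functional t (t := 0) hx0 hx1
    have e : ∀ y : ℝ, ((y : ℝ) : ℂ) + ((0:ℝ):ℂ) * I + t * I = ⟨y, t⟩ := by
      intro y
      apply Complex.ext <;> simp
    rw [e, e, abs_zero, add_zero, Real.one_rpow, mul_one] at h1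
    exact h1

/-- convexity bound -/
theorem conv_gen (n : ℕ) (θ A : ℝ) (hθ : θ < 1 / 2) {a κ : ℝ} (ha : 0 < a) (ha1 : a ≤ 1 / 4)
    (hκ : 0 < κ) : ∃ C : ℝ, 0 ≤ C ∧ ∀ D : StdL n, D.IsStandard θ A → ∀ s : ℂ, -a ≤ s.re → s.re ≤ 1 + a →
      ‖D.L s‖ ≤ C * D.cond (1 / 2 + s.im * I) ^ ((1 + a - s.re) / 2 + κ) := by
  have HF := afam n θ A hθ
  obtain ⟨B, hB0, hB⟩ := G_small θ A hθ n (δ := a) (κ := κ) ha (by linarith) hκ
  obtain ⟨C, hC0, hC⟩ := H855R2.SF.pl HF (a := -a) (b := 1 + a) (ea := 1 / 2 + a + κ) (eb := κ)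
    (Ca := 24 ^ n * Real.exp B) (Cb := Real.exp B) (by linarith) (by linarith) (by linarith)
    (by linarith) hκ.le (by positivity) (by positivity)
  refine ⟨C, hC0, fun D H s hs1 hs2 => ?_⟩
  have hr : ∀ t : ℝ, ‖D.L ⟨1 + a, t⟩‖ ≤ Real.exp B * D.cond (1 / 2 + t * I) ^ κ := by
    intro t
    obtain ⟨g, hg1, hg2⟩ := hB D H ⟨1 + a, t⟩ le_rfl t
    have hQ := one_le_cond H.q_pos (1 / 2 + t * I)
    rw [hg1, Complex.norm_exp]
    calc Real.exp g.re ≤ Real.exp (κ * Real.log (D.cond (1 / 2 + t * I)) + B) :=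
          Real.exp_le_exp.2 ((Complex.re_le_norm _).trans hg2)
      _ = _ := by
          rw [Real.exp_add, Real.rpow_def_of_pos (by linarith), mul_comm (Real.exp B), mul_comm κ]
  have h1 := hC ⟨D, H⟩ (fun t => by
      have h1 := refl_at H.q_pos D.μ (fun j => by linarith [H.arch j]) H.w_norm
        H.functional t (t := 0) (x := 1 / 2 + a) (by linarith) (by linarith)
      have e : ∀ y : ℝ, ((y : ℝ) : ℂ) + ((0:ℝ):ℂ) * I + t * I = ⟨y, t⟩ := by
        intro y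
        apply Complex.ext <;> simp
      rw [e, e, abs_zero, add_zero, Real.one_rpow, mul_one] at h1
      have e2 : (1 / 2 - (1 / 2 + a) : ℝ) = -a := by ring
      have e3 : (1 / 2 + (1 / 2 + a) : ℝ) = 1 + a := by ring
      rw [e2, e3] at h1
      have hQ := one_le_cond H.q_pos (1 / 2 + t * I)
      have hQ0 : 0 < D.cond (1 / 2 + t * I) := by linarith
      calc ‖D.L ⟨-a, t⟩‖ ≤ 24 ^ n * D.cond (1 / 2 + t * I) ^ (1 / 2 + a) * ‖D.L ⟨1 + a, t⟩‖ := h1
        _ ≤ 24 ^ n * D.cond (1 / 2 + t * I) ^ (1 / 2 + a) *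
            (Real.exp B * D.cond (1 / 2 + t * I) ^ κ) := by
              gcongr
              exact hr t
        _ = _ := by
            rw [Real.rpow_add hQ0 (1 / 2 + a) κ]
            ring) hr s hs1 hs2
  refine h1.trans (le_of_eq ?_)
  congr 2
  have : (1 + a - -a) ≠ 0 := by
    have : 0 < 1 + a - -a := by linarith
    exact this.ne'
  field_simp
  ring

lemma ev_exp {c : ℝ} (hc : 0 < c) (K : ℝ) : ∀ᶠ l : ℝ in Filter.atTop, K ≤ Real.exp (c * l) :=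
  (Real.tendsto_exp_atTop.comp (Filter.tendsto_id.const_mul_atTop hc)).eventually_ge_atTop K

lemma ev_lin {c : ℝ} (hc : 0 < c) (K : ℝ) : ∀ᶠ l : ℝ in Filter.atTop, K ≤ c * l :=
  (Filter.tendsto_id.const_mul_atTop hc).eventually_ge_atTop K

/-- the conductor at a nearby point -/
lemma cond_near {n : ℕ} {D : StdL n} (hq : 0 < D.q) {t u W e : ℝ} (hu : |u| ≤ W) (he0 : 0 ≤ e)
    (he1 : e ≤ 1) : D.cond (1 / 2 + ((u + t : ℝ) : ℂ) * I) ^ e ≤
      (1 + W) ^ (n : ℝ) * Real.exp (e * Real.log (D.cond (1 / 2 + t * I))) := by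
  have h1 := cond_shift D t u
  rw [add_comm t u] at h1
  have hQ := one_le_cond hq (1 / 2 + t * I)
  have hQ' := one_le_cond hq (1 / 2 + ((u + t : ℝ) : ℂ) * I)
  have hW : 0 ≤ W := (abs_nonneg u).trans hu
  have hb : 1 ≤ (1 + |u|) ^ (n:ℝ) := Real.one_le_rpow (by linarith [abs_nonneg u]) (Nat.cast_nonneg n)
  calc D.cond (1 / 2 + ((u + t : ℝ) : ℂ) * I) ^ e ≤
        ((1 + |u|) ^ (n:ℝ) * D.cond (1 / 2 + t * I)) ^ e :=
          Real.rpow_le_rpow (by linarith) h1 he0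
    _ = ((1 + |u|) ^ (n:ℝ)) ^ e * D.cond (1 / 2 + t * I) ^ e :=
          Real.mul_rpow (by linarith) (by linarith)
    _ ≤ ((1 + |u|) ^ (n:ℝ)) ^ (1:ℝ) * D.cond (1 / 2 + t * I) ^ e := by
          apply mul_le_mul_of_nonneg_right _ (Real.rpow_nonneg (by linarith) _)
          exact Real.rpow_le_rpow_of_exponent_le hb he1
    _ ≤ (1 + W) ^ (n:ℝ) * D.cond (1 / 2 + t * I) ^ e := by
          rw [Real.rpow_one]
          apply mul_le_mul_of_nonneg_right _ (Real.rpow_nonneg (by linarith) _)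
          exact Real.rpow_le_rpow (by positivity) (by linarith) (Nat.cast_nonneg n)
    _ = _ := by rw [Real.rpow_def_of_pos (by linarith : 0 < D.cond (1 / 2 + t * I)), mul_comm (Real.log _)]

/-- **The local hypotheses hold for all L-functions of the class, at points of large conductor** -/
theorem fam_loc (n : ℕ) (θ A : ℝ) (hθ : θ < 1 / 2) {a κ W ρ : ℝ} (ha : 0 < a) (ha1 : a ≤ 1 / 16)
    (hκ : 0 < κ) (hκa : κ ≤ a / 100) (hW : 2 ≤ W) (hρ : 0 < ρ) :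
    ∃ X0 : ℝ, ∀ D : StdL n, D.IsStandard θ A → ∀ t : ℝ,
      X0 ≤ Real.log (D.cond (1 / 2 + t * I)) → (∀ j, ρ ≤ |(D.μ j).re - a|) →
      Loc (fun z => D.L (z + t * I)) (Real.log (D.cond (1 / 2 + t * I))) κ a W := by
  obtain ⟨B, hB0, hB⟩ := G_small θ A hθ n (δ := a) (κ := κ / 4) ha (by linarith) (by positivity)
  obtain ⟨C1, hC10, hC1⟩ := conv_gen n θ A hθ (a := a) (κ := κ / 2) ha (by linarith) (by positivity)
  obtain ⟨C2, hC20, hC2⟩ := conv_gen n θ A hθ (a := 1 / 8) (κ := κ) (by norm_num) (by norm_num) hκ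
  have hcL := cL_pos hρ (by linarith : 0 ≤ W)
  obtain ⟨X0, hX0⟩ := Filter.eventually_atTop.1
    ((((ev_exp one_pos (C2 * (1 + 2 * W) ^ (n:ℝ))).and
      (ev_exp (by positivity : 0 < κ / 2) (C1 * (1 + W) ^ (n:ℝ)))).and
      ((ev_lin (by positivity : 0 < κ / 4) B).and (ev_exp (by positivity : 0 < κ / 4) ((cL ρ W ^ n)⁻¹)))).and
      (Filter.eventually_gt_atTop (0:ℝ)))
  refine ⟨X0, fun D H t ht hμ => ?_⟩
  set l : ℝ := Real.log (D.cond (1 / 2 + t * I)) with hl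
  obtain ⟨⟨⟨h1, h2⟩, h3, h4⟩, h5⟩ := hX0 l ht
  have hQ := one_le_cond H.q_pos (1 / 2 + t * I)
  have hpt : ∀ x u : ℝ, (((x:ℝ):ℂ) + u * I + t * I).re = x ∧ (((x:ℝ):ℂ) + u * I + t * I).im = u + t := by
    intro x u
    constructor <;> simp
  have hG : ∀ x u : ℝ, 1 + a ≤ x → ∃ g : ℂ, D.L (((x:ℝ):ℂ) + u * I + t * I) = Complex.exp g ∧
      ‖g‖ ≤ κ / 2 * l := by
    intro x u hx
    obtain ⟨g, hg1, hg2⟩ := hB D H (((x:ℝ):ℂ) + u * I + t * I) (by rw [(hpt x u).1]; exact hx) t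
    refine ⟨g, hg1, hg2.trans ?_⟩
    linarith
  have hκl : 0 < κ * l := by positivity
  refine ⟨H.entire.comp (by fun_prop), h5, hκ, ha, ha1, hW, hκa, ?_, ?_, ?_, ?_, ?_⟩
  · intro x u hx1 hx2 hu
    have g1 := hC2 D H (((x:ℝ):ℂ) + u * I + t * I) (by rw [(hpt x u).1]; linarith)
      (by rw [(hpt x u).1]; linarith)
    rw [(hpt x u).1, (hpt x u).2] at g1
    have g2 := cond_near H.q_pos (t := t) (u := u) (W := 2 * W) (e := (1 + 1 / 8 - x) / 2 + κ) hu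
      (by linarith) (by linarith)
    have g3 : Real.exp (((1 + 1 / 8 - x) / 2 + κ) * l) ≤ Real.exp (1 * l) := by
      apply Real.exp_le_exp.2
      apply mul_le_mul_of_nonneg_right _ h5.le
      linarith
    calc ‖D.L (((x:ℝ):ℂ) + u * I + t * I)‖ ≤
          C2 * D.cond (1 / 2 + ((u + t : ℝ) : ℂ) * I) ^ ((1 + 1 / 8 - x) / 2 + κ) := g1
      _ ≤ C2 * ((1 + 2 * W) ^ (n:ℝ) * Real.exp (1 * l)) := by
          apply mul_le_mul_of_nonneg_left _ hC20
          refine g2.trans ?_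
          gcongr
      _ = C2 * (1 + 2 * W) ^ (n:ℝ) * Real.exp (1 * l) := by ring
      _ ≤ Real.exp (1 * l) * Real.exp (1 * l) := by gcongr
      _ = _ := by rw [← Real.exp_add]; ring_nf
  · intro x u hx1 hx2 hu
    have g1 := hC1 D H (((x:ℝ):ℂ) + u * I + t * I) (by rw [(hpt x u).1]; linarith)
      (by rw [(hpt x u).1]; linarith)
    rw [(hpt x u).1, (hpt x u).2] at g1
    have g2 := cond_near H.q_pos (t := t) (u := u) (W := W) (e := (1 + a - x) / 2 + κ / 2) hu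
      (by linarith) (by linarith)
    calc ‖D.L (((x:ℝ):ℂ) + u * I + t * I)‖ ≤
          C1 * D.cond (1 / 2 + ((u + t : ℝ) : ℂ) * I) ^ ((1 + a - x) / 2 + κ / 2) := g1
      _ ≤ C1 * ((1 + W) ^ (n:ℝ) * Real.exp (((1 + a - x) / 2 + κ / 2) * l)) := by gcongr
      _ = C1 * (1 + W) ^ (n:ℝ) * Real.exp (((1 + a - x) / 2 + κ / 2) * l) := by ring
      _ ≤ Real.exp (κ / 2 * l) * Real.exp (((1 + a - x) / 2 + κ / 2) * l) := by gcongr
      _ = _ := by rw [← Real.exp_add]; ring_nf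
  · intro x u hx1 hx2 hu
    obtain ⟨g, hg1, hg2⟩ := hG x u hx1
    show Real.exp (-(κ * l)) ≤ ‖D.L (((x:ℝ):ℂ) + u * I + t * I)‖
    rw [hg1, Complex.norm_exp]
    apply Real.exp_le_exp.2
    have := (abs_le.1 (Complex.abs_re_le_norm g)).1
    linarith
  · intro x u hx1 hx2 hu
    obtain ⟨g, hg1, hg2⟩ := hG x u hx1
    show ‖D.L (((x:ℝ):ℂ) + u * I + t * I)‖ ≤ Real.exp (κ * l)
    rw [hg1, Complex.norm_exp]
    apply Real.exp_le_exp.2
    have := Complex.re_le_norm g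
    linarith
  · intro u hu
    have g1 := left_low hθ H ha (by linarith) hρ (by linarith : 0 ≤ W) hμ t hu
    obtain ⟨g, hg1, hg2⟩ := hG (1 + a) u le_rfl
    refine le_trans ?_ g1
    rw [hg1, Complex.norm_exp]
    have g2 : Real.exp (-(κ / 2 * l)) ≤ Real.exp g.re := by
      apply Real.exp_le_exp.2
      have := (abs_le.1 (Complex.abs_re_le_norm g)).1
      linarith
    have g3 : Real.exp (-(κ / 4 * l)) ≤ cL ρ W ^ n := by
      rw [Real.exp_neg]
      exact inv_le_of_inv_le₀ (by positivity) h4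
    have g4 : D.cond (1 / 2 + t * I) ^ (1 / 2 + a) = Real.exp ((1 / 2 + a) * l) := by
      rw [Real.rpow_def_of_pos (by linarith), mul_comm]
    rw [g4]
    calc Real.exp ((1 / 2 + a - κ) * l) ≤
          Real.exp (-(κ / 4 * l)) * Real.exp ((1 / 2 + a) * l) * Real.exp (-(κ / 2 * l)) := by
          rw [← Real.exp_add, ← Real.exp_add]
          apply Real.exp_le_exp.2
          nlinarith
      _ ≤ cL ρ W ^ n * Real.exp ((1 / 2 + a) * l) * Real.exp g.re := by gcongr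

end Pool.Agent.K4H72.SC
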