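import Mathlib

/-!
# Weighted vertical integrals of `log |f|` and their derivatives
-/

set_option autoImplicit false

open MeasureTheory Filter Topology Set Complex

namespace Pool.Agent.K4H72.SC

/-- the test function in the vertical direction -/
noncomputable def H (W u : ℝ) : ℝ := (W ^ 2 - u ^ 2) ^ 2
/-- its derivative -/
noncomputable def H1 (W u : ℝ) : ℝ := -4 * u * (W ^ 2 - u ^ 2)
/-- its second derivative -/
noncomputable def H2 (W u : ℝ) : ℝ := 12 * u ^ 2 - 4 * W ^ 2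

lemma H_cont (W : ℝ) : Continuous (H W) := by unfold H; fun_prop
lemma H1_cont (W : ℝ) : Continuous (H1 W) := by unfold H1; fun_prop
lemma H2_cont (W : ℝ) : Continuous (H2 W) := by unfold H2; fun_prop

lemma H_deriv (W u : ℝ) : HasDerivAt (H W) (H1 W u) u := by
  have h : HasDerivAt (fun u : ℝ => (W ^ 2 - u ^ 2) ^ 2) (2 * (W ^ 2 - u ^ 2) ^ 1 * (0 - 2 * u ^ 1 * 1)) u :=
    (((hasDerivAt_const u (W ^ 2)).sub ((hasDerivAt_id u).pow 2)).pow 2)
  have e : H1 W u = 2 * (W ^ 2 - u ^ 2) ^ 1 * (0 - 2 * u ^ 1 * 1) := by unfold H1; ring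
  rw [e]
  exact h

lemma H1_deriv (W u : ℝ) : HasDerivAt (H1 W) (H2 W u) u := by
  have h : HasDerivAt (fun u : ℝ => -4 * u * (W ^ 2 - u ^ 2))
      ((-4 * 1) * (W ^ 2 - u ^ 2) + (-4 * u) * (0 - 2 * u ^ 1 * 1)) u :=
    (((hasDerivAt_id u).const_mul (-4 : ℝ)).mul ((hasDerivAt_const u (W ^ 2)).sub ((hasDerivAt_id u).pow 2)))
  have e : H2 W u = (-4 * 1) * (W ^ 2 - u ^ 2) + (-4 * u) * (0 - 2 * u ^ 1 * 1) := by unfold H2; ring
  rw [e]
  exact h

@[simp] lemma H_top (W : ℝ) : H W W = 0 := by unfold H; ring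
@[simp] lemma H_bot (W : ℝ) : H W (-W) = 0 := by unfold H; ring
@[simp] lemma H1_top (W : ℝ) : H1 W W = 0 := by unfold H1; ring
@[simp] lemma H1_bot (W : ℝ) : H1 W (-W) = 0 := by unfold H1; ring
lemma H_nonneg (W u : ℝ) : 0 ≤ H W u := by unfold H; positivity

/-- parametric integrals -/
lemma param {F F' : ℝ → ℝ → ℝ} {x0 r a b : ℝ} (hr : 0 < r)
    (hF : ContinuousOn (fun p : ℝ × ℝ => F p.1 p.2) (Icc (x0 - r) (x0 + r) ×ˢ uIcc a b))
    (hF' : ContinuousOn (fun p : ℝ × ℝ => F' p.1 p.2) (Icc (x0 - r) (x0 + r) ×ˢ uIcc a b))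
    (hd : ∀ x ∈ Icc (x0 - r) (x0 + r), ∀ u ∈ uIcc a b, HasDerivAt (fun x => F x u) (F' x u) x) :
    HasDerivAt (fun x => ∫ u in a..b, F x u) (∫ u in a..b, F' x0 u) x0 := by
  obtain ⟨C, hC⟩ := (isCompact_Icc.prod isCompact_uIcc).exists_bound_of_continuousOn hF'
  have hx0 : x0 ∈ Icc (x0 - r) (x0 + r) := ⟨by linarith, by linarith⟩
  have hsec : ∀ x ∈ Icc (x0 - r) (x0 + r), ContinuousOn (F x) (uIcc a b) := fun x hx =>
    hF.comp (f := fun u : ℝ => ((x, u) : ℝ × ℝ)) (by fun_prop) fun u hu => ⟨hx, hu⟩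
  have hsec' : ContinuousOn (F' x0) (uIcc a b) :=
    hF'.comp (f := fun u : ℝ => ((x0, u) : ℝ × ℝ)) (by fun_prop) fun u hu => ⟨hx0, hu⟩
  refine (intervalIntegral.hasDerivAt_integral_of_dominated_loc_of_deriv_le (𝕜 := ℝ)
    (F := F) (F' := F') (bound := fun _ => C) (s := Icc (x0 - r) (x0 + r))
    (Icc_mem_nhds (by linarith) (by linarith)) ?_
    (hsec x0 hx0).intervalIntegrable ?_ ?_
    intervalIntegrable_const ?_).2
  · filter_upwards [Icc_mem_nhds (by linarith : x0 - r < x0) (by linarith : x0 < x0 + r)] with x hx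
    exact ((hsec x hx).mono uIoc_subset_uIcc).aestronglyMeasurable measurableSet_uIoc
  · exact (hsec'.mono uIoc_subset_uIcc).aestronglyMeasurable measurableSet_uIoc
  · refine Eventually.of_forall fun u hu x hx => ?_
    exact hC (x, u) ⟨hx, uIoc_subset_uIcc hu⟩
  · refine Eventually.of_forall fun u hu x hx => hd x hx u (uIoc_subset_uIcc hu)

/-- derivative of `log ‖g‖` -/
lemma dlog {g : ℝ → ℂ} {g' : ℂ} {x : ℝ} (hg : HasDerivAt g g' x) (h0 : g x ≠ 0) :
    HasDerivAt (fun x => Real.log ‖g x‖) (g' / g x).re x := by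
  have h1 := hg.norm_sq
  have h2 : ‖g x‖ ^ 2 ≠ 0 := by positivity
  have h3 := (h1.log h2).const_mul (1 / 2 : ℝ)
  have e1 : (fun x => Real.log ‖g x‖) = fun x => 1 / 2 * Real.log (‖g x‖ ^ 2) := by
    funext y
    rw [Real.log_pow]
    push_cast
    ring
  rw [e1]
  have e2 : (g' / g x).re = 1 / 2 * (2 * inner ℝ (g x) g' / ‖g x‖ ^ 2) := by
    rw [Complex.div_re, Complex.inner, Complex.mul_re, Complex.conj_re, Complex.conj_im,
      ← Complex.normSq_eq_norm_sq]
    have h4 : Complex.normSq (g x) ≠ 0 := by simpa using h0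
    field_simp
    ring
  rw [e2]
  exact h3

/-- the point `x + i u` -/
lemma pt_dx (f : ℂ → ℂ) (hf : Differentiable ℂ f) (x u : ℝ) :
    HasDerivAt (fun x : ℝ => f (x + u * I)) (deriv f (x + u * I)) x := by
  have h1 : HasDerivAt (fun x : ℝ => (x : ℂ) + u * I) 1 x := by
    simpa using (Complex.ofRealCLM.hasDerivAt (x := x)).add_const ((u : ℂ) * I)
  have h2 := (hf ((x : ℂ) + u * I)).hasDerivAt
  have h3 := HasDerivAt.scomp_of_eq (h := fun x : ℝ => (x : ℂ) + u * I) x h2 h1 rfl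
  simpa [Function.comp_def] using h3

lemma pt_du (f : ℂ → ℂ) (hf : Differentiable ℂ f) (x u : ℝ) :
    HasDerivAt (fun u : ℝ => f (x + u * I)) (I * deriv f (x + u * I)) u := by
  have h1 : HasDerivAt (fun u : ℝ => (x : ℂ) + u * I) I u := by
    simpa using ((Complex.ofRealCLM.hasDerivAt (x := u)).mul_const I).const_add (x : ℂ)
  have h2 := (hf ((x : ℂ) + u * I)).hasDerivAt
  have h3 := HasDerivAt.scomp_of_eq (h := fun u : ℝ => (x : ℂ) + u * I) u h2 h1 rfl
  simpa [Function.comp_def] using h3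

/-- the weighted vertical integral of `log ‖f‖` -/
noncomputable def J (w : ℝ → ℝ) (W : ℝ) (f : ℂ → ℂ) (x : ℝ) : ℝ :=
  ∫ u in (-W)..W, w u * Real.log ‖f (x + u * I)‖

/-- the logarithmic derivative -/
noncomputable def q (f : ℂ → ℂ) (s : ℂ) : ℂ := deriv f s / f s

lemma nbhd {f : ℂ → ℂ} (hf : Differentiable ℂ f) {x0 W : ℝ}
    (h0 : ∀ u ∈ uIcc (-W) W, f (x0 + u * I) ≠ 0) :
    ∃ r : ℝ, 0 < r ∧ ∀ x ∈ Icc (x0 - r) (x0 + r), ∀ u ∈ uIcc (-W) W, f (x + u * I) ≠ 0 := by
  have hopen : IsOpen {p : ℝ × ℝ | f ((p.1 : ℂ) + p.2 * I) ≠ 0} := by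
    have hc : Continuous fun p : ℝ × ℝ => f ((p.1 : ℂ) + p.2 * I) := hf.continuous.comp (by fun_prop)
    exact isOpen_ne_fun hc continuous_const
  obtain ⟨U, V, hU, hV, hxU, hV2, hUV⟩ := generalized_tube_lemma (isCompact_singleton (x := x0))
    (isCompact_uIcc (a := -W) (b := W)) hopen (by
      rintro ⟨x, u⟩ ⟨hx, hu⟩
      have hx' : x = x0 := hx
      subst hx'
      exact h0 u hu)
  obtain ⟨r, hr, hrU⟩ := Metric.nhds_basis_closedBall.mem_iff.1 (hU.mem_nhds (hxU rfl))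
  refine ⟨r, hr, fun x hx u hu => ?_⟩
  have h1 : x ∈ U := hrU (by rw [Real.closedBall_eq_Icc]; exact hx)
  exact hUV (show (x, u) ∈ U ×ˢ V from ⟨h1, hV2 hu⟩)

/-- derivative of the weighted integral, away from zeros -/
lemma J_deriv {w : ℝ → ℝ} (hw : Continuous w) {f : ℂ → ℂ} (hf : Differentiable ℂ f) {x0 W : ℝ}
    (h0 : ∀ u ∈ uIcc (-W) W, f (x0 + u * I) ≠ 0) :
    HasDerivAt (J w W f) (∫ u in (-W)..W, w u * (q f (x0 + u * I)).re) x0 := by
  obtain ⟨r, hr, hnz⟩ := nbhd hf h0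
  have hfc := hf.continuous
  have hdc : Continuous (deriv f) := (hf.contDiff (n := 1)).continuous_deriv le_rfl
  refine param (F := fun x u => w u * Real.log ‖f (x + u * I)‖)
    (F' := fun x u => w u * (q f (x + u * I)).re) hr ?_ ?_ ?_
  · refine ContinuousOn.mul (by fun_prop) (ContinuousOn.log ?_ ?_)
    · exact (hfc.comp (by fun_prop)).norm.continuousOn
    · rintro ⟨x, u⟩ ⟨hx, hu⟩
      exact norm_ne_zero_iff.2 (hnz x hx u hu)
  · refine ContinuousOn.mul (by fun_prop) (Complex.continuous_re.comp_continuousOn (ContinuousOn.div ?_ ?_ ?_))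
    · exact (hdc.comp (by fun_prop)).continuousOn
    · exact (hfc.comp (by fun_prop)).continuousOn
    · rintro ⟨x, u⟩ ⟨hx, hu⟩
      exact hnz x hx u hu
  · intro x hx u hu
    exact (dlog (pt_dx f hf x u) (hnz x hx u hu)).const_mul (w u)

lemma q_deriv {f : ℂ → ℂ} (hf : Differentiable ℂ f) {s : ℂ} (h : f s ≠ 0) :
    DifferentiableAt ℂ (q f) s := by
  have hd : Differentiable ℂ (deriv f) := (hf.contDiff (n := 2)).differentiable_deriv_two
  exact (hd s).div (hf s) h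

lemma q_cont {f : ℂ → ℂ} (hf : Differentiable ℂ f) {A : Set (ℝ × ℝ)}
    (h : ∀ p ∈ A, f (p.1 + p.2 * I) ≠ 0) :
    ContinuousOn (fun p : ℝ × ℝ => deriv (q f) (p.1 + p.2 * I)) A := by
  have hfc := hf.continuous
  have hd : Differentiable ℂ (deriv f) := (hf.contDiff (n := 2)).differentiable_deriv_two
  have hdc : Continuous (deriv f) := hd.continuous
  have hddc : Continuous (deriv (deriv f)) := (hd.contDiff (n := 1)).continuous_deriv le_rfl
  have e : ∀ p ∈ A, deriv (q f) (p.1 + p.2 * I) = (deriv (deriv f) (p.1 + p.2 * I) * f (p.1 + p.2 * I) -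
      deriv f (p.1 + p.2 * I) * deriv f (p.1 + p.2 * I)) / f (p.1 + p.2 * I) ^ 2 := by
    intro p hp
    exact ((hd _).hasDerivAt.div (hf _).hasDerivAt (h p hp)).deriv
  refine ContinuousOn.congr ?_ e
  refine ContinuousOn.div ?_ ?_ ?_
  · exact (((hddc.comp (by fun_prop)).mul (hfc.comp (by fun_prop))).sub
      ((hdc.comp (by fun_prop)).mul (hdc.comp (by fun_prop)))).continuousOn
  · exact ((hfc.comp (by fun_prop)).pow 2).continuousOn
  · intro p hp
    exact pow_ne_zero _ (h p hp)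

/-- the second derivative of the integral with the weight `H` -/
lemma J_deriv2 {f : ℂ → ℂ} (hf : Differentiable ℂ f) {x0 W : ℝ}
    (h0 : ∀ u ∈ uIcc (-W) W, f (x0 + u * I) ≠ 0) :
    HasDerivAt (fun x : ℝ => ∫ u in (-W)..W, H W u * (q f (x + u * I)).re) (-J (H2 W) W f x0) x0 := by
  obtain ⟨r, hr, hnz⟩ := nbhd hf h0
  have hfc := hf.continuous
  have hdc : Continuous (deriv f) := (hf.contDiff (n := 1)).continuous_deriv le_rfl
  have hx0 : x0 ∈ Icc (x0 - r) (x0 + r) := ⟨by linarith, by linarith⟩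
  have hqc : ContinuousOn (fun p : ℝ × ℝ => q f (p.1 + p.2 * I)) (Icc (x0 - r) (x0 + r) ×ˢ uIcc (-W) W) := by
    refine ContinuousOn.div ?_ ?_ ?_
    · exact (hdc.comp (by fun_prop)).continuousOn
    · exact (hfc.comp (by fun_prop)).continuousOn
    · rintro ⟨x, u⟩ ⟨hx, hu⟩
      exact hnz x hx u hu
  have hqc' := q_cont hf (A := Icc (x0 - r) (x0 + r) ×ˢ uIcc (-W) W) (by
      rintro ⟨x, u⟩ ⟨hx, hu⟩
      exact hnz x hx u hu)
  have h1 := param (F := fun x u => H W u * (q f (x + u * I)).re)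
    (F' := fun x u => H W u * (deriv (q f) (x + u * I)).re) (x0 := x0) (a := -W) (b := W) hr
    (ContinuousOn.mul ((H_cont W).comp continuous_snd).continuousOn
      (Complex.continuous_re.comp_continuousOn hqc))
    (ContinuousOn.mul ((H_cont W).comp continuous_snd).continuousOn
      (Complex.continuous_re.comp_continuousOn hqc')) (by
    intro x hx u hu
    have h2 := (q_deriv hf (hnz x hx u hu)).hasDerivAt
    have h3 : HasDerivAt (fun x : ℝ => (x : ℂ) + u * I) 1 x := by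
      simpa using (Complex.ofRealCLM.hasDerivAt (x := x)).add_const ((u : ℂ) * I)
    have h4 := HasDerivAt.scomp_of_eq (h := fun x : ℝ => (x : ℂ) + u * I) x h2 h3 rfl
    have h5 := (Complex.reCLM.hasFDerivAt.comp_hasDerivAt x h4)
    have h6 := h5.const_mul (H W u)
    simpa [Function.comp_def] using h6)
  convert h1 using 1
  -- integration by parts
  have hsecq : ContinuousOn (fun u : ℝ => q f (x0 + u * I)) (uIcc (-W) W) :=
    hqc.comp (f := fun u : ℝ => ((x0, u) : ℝ × ℝ)) (by fun_prop) fun u hu => ⟨hx0, hu⟩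
  have hsecq' : ContinuousOn (fun u : ℝ => deriv (q f) (x0 + u * I)) (uIcc (-W) W) :=
    hqc'.comp (f := fun u : ℝ => ((x0, u) : ℝ × ℝ)) (by fun_prop) fun u hu => ⟨hx0, hu⟩
  have hIm : ∀ u ∈ uIcc (-W) W, HasDerivAt (fun u : ℝ => (q f (x0 + u * I)).im)
      (deriv (q f) (x0 + u * I)).re u := by
    intro u hu
    have h2 := (q_deriv hf (h0 u hu)).hasDerivAt
    have h3 : HasDerivAt (fun u : ℝ => (x0 : ℂ) + u * I) I u := by
      simpa using ((Complex.ofRealCLM.hasDerivAt (x := u)).mul_const I).const_add (x0 : ℂ)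
    have h4 := HasDerivAt.scomp_of_eq (h := fun u : ℝ => (x0 : ℂ) + u * I) u h2 h3 rfl
    have h5 := (Complex.imCLM.hasFDerivAt.comp_hasDerivAt u h4)
    simpa [Function.comp_def] using h5
  have hLg : ∀ u ∈ uIcc (-W) W, HasDerivAt (fun u : ℝ => Real.log ‖f (x0 + u * I)‖)
      (-(q f (x0 + u * I)).im) u := by
    intro u hu
    have h2 := dlog (pt_du f hf x0 u) (h0 u hu)
    have e : (I * deriv f (x0 + u * I) / f (x0 + u * I)).re = -(q f (x0 + u * I)).im := by
      rw [mul_div_assoc]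
      simp [q]
    rwa [e] at h2
  have i1 := intervalIntegral.integral_mul_deriv_eq_deriv_mul (a := -W) (b := W)
    (u := H W) (u' := H1 W) (v := fun u : ℝ => (q f (x0 + u * I)).im)
    (v' := fun u : ℝ => (deriv (q f) (x0 + u * I)).re)
    (fun u _ => H_deriv W u) hIm ((H1_cont W).intervalIntegrable _ _)
    (Complex.continuous_re.comp_continuousOn hsecq').intervalIntegrable
  have i2 := intervalIntegral.integral_mul_deriv_eq_deriv_mul (a := -W) (b := W)
    (u := H1 W) (u' := H2 W) (v := fun u : ℝ => Real.log ‖f (x0 + u * I)‖)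
    (v' := fun u : ℝ => -(q f (x0 + u * I)).im)
    (fun u _ => H1_deriv W u) hLg ((H2_cont W).intervalIntegrable _ _)
    (Complex.continuous_im.comp_continuousOn hsecq).neg.intervalIntegrable
  simp only [H_top, H_bot, H1_top, H1_bot, zero_mul, sub_zero, zero_sub] at i1 i2
  rw [i1]
  have e3 : ∫ u in (-W)..W, H1 W u * (q f (x0 + u * I)).im = -∫ u in (-W)..W, H1 W u * -(q f (x0 + u * I)).im := by
    rw [← intervalIntegral.integral_neg]
    congr 1
    funext u
    ring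
  rw [e3, i2]
  unfold J
  ring

end Pool.Agent.K4H72.SC
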