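import Pool.Agent.K4H72.SC.A

/-!
# The vertical integrals for a linear factor
-/

set_option autoImplicit false

open MeasureTheory Filter Topology Set Complex

namespace Pool.Agent.K4H72.SC

/-- the linear factor -/
noncomputable def lf (ρ : ℂ) (s : ℂ) : ℂ := s - ρ

lemma lf_norm (ρ : ℂ) (x u : ℝ) : ‖lf ρ (x + u * I)‖ = Real.sqrt ((x - ρ.re) ^ 2 + (u - ρ.im) ^ 2) := by
  unfold lf
  rw [Complex.norm_eq_sqrt_sq_add_sq]
  congr 2 <;> simp

lemma lf_norm_ge (ρ : ℂ) (x u : ℝ) : |u - ρ.im| ≤ ‖lf ρ (x + u * I)‖ := by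
  rw [lf_norm]
  apply Real.le_sqrt_of_sq_le
  rw [sq_abs]
  nlinarith [sq_nonneg (x - ρ.re)]

lemma lf_norm_le (ρ : ℂ) (x u : ℝ) : ‖lf ρ (x + u * I)‖ ≤ |x - ρ.re| + |u - ρ.im| := by
  rw [lf_norm]
  apply Real.sqrt_le_iff.2
  constructor
  · positivity
  · have h1 := sq_abs (x - ρ.re)
    have h2 := sq_abs (u - ρ.im)
    nlinarith [abs_nonneg (x - ρ.re), abs_nonneg (u - ρ.im), mul_nonneg (abs_nonneg (x - ρ.re)) (abs_nonneg (u - ρ.im))]

lemma abs_log_le {a b R : ℝ} (ha : 0 < a) (hab : a ≤ b) (hb : b ≤ R + a) (hR : 0 ≤ R) :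
    |Real.log b| ≤ |Real.log a| + (R + a) := by
  have hb0 : 0 < b := by linarith
  rw [abs_le]
  constructor
  · have h1 : Real.log a ≤ Real.log b := Real.log_le_log ha hab
    have h2 := neg_abs_le (Real.log a)
    linarith
  · have h1 := Real.log_le_sub_one_of_pos hb0
    have h2 := abs_nonneg (Real.log a)
    linarith

lemma log_int (γ a b : ℝ) : IntervalIntegrable (fun u => Real.log |u - γ|) volume a b := by
  have h := intervalIntegral.intervalIntegrable_log' (a := a - γ) (b := b - γ)
  have h2 := h.comp_sub_right γ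
  simpa [Real.log_abs] using h2

/-- continuity of the integrals for a linear factor -/
lemma J_lf_cont {w : ℝ → ℝ} (hw : Continuous w) (W : ℝ) (ρ : ℂ) : Continuous (J w W (lf ρ)) := by
  rw [continuous_iff_continuousAt]
  intro x0
  obtain ⟨C, hC⟩ := (isCompact_uIcc (a := -W) (b := W)).exists_bound_of_continuousOn hw.continuousOn
  have hC0 : 0 ≤ C := (norm_nonneg _).trans (hC (-W) left_mem_uIcc)
  set R : ℝ := |x0 - ρ.re| + 1 with hR
  have hR0 : 0 ≤ R := by positivity
  refine intervalIntegral.continuousAt_of_dominated_interval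
    (bound := fun u => C * (|Real.log (|u - ρ.im|)| + (R + |u - ρ.im|))) ?_ ?_ ?_ ?_
  · refine Eventually.of_forall fun x => ?_
    apply Measurable.aestronglyMeasurable
    have : Measurable fun u : ℝ => ‖lf ρ (x + u * I)‖ := by
      unfold lf; fun_prop
    exact hw.measurable.mul (Real.measurable_log.comp this)
  · have hx : Icc (x0 - 1) (x0 + 1) ∈ 𝓝 x0 := Icc_mem_nhds (by linarith) (by linarith)
    filter_upwards [hx] with x hx
    have hne : ∀ᵐ u : ℝ, u ≠ ρ.im := by
      have : (({ρ.im} : Set ℝ)ᶜ) ∈ ae volume := by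
        rw [mem_ae_iff, compl_compl]
        exact measure_singleton _
      exact this
    filter_upwards [hne] with u hu hu2
    rw [norm_mul]
    have h1 := hC u (uIoc_subset_uIcc hu2)
    have h2 : 0 < |u - ρ.im| := abs_pos.2 (sub_ne_zero.2 hu)
    have h3 : |x - ρ.re| ≤ R := by
      rw [hR]
      have : |x - x0| ≤ 1 := by rw [abs_le]; constructor <;> linarith [hx.1, hx.2]
      calc |x - ρ.re| = |(x - x0) + (x0 - ρ.re)| := by congr 1; ring
        _ ≤ |x - x0| + |x0 - ρ.re| := abs_add_le _ _
        _ ≤ _ := by linarith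
    have h4 := abs_log_le h2 (lf_norm_ge ρ x u) ((lf_norm_le ρ x u).trans (by linarith)) hR0
    exact mul_le_mul h1 h4 (norm_nonneg _) hC0
  · apply IntervalIntegrable.const_mul
    apply IntervalIntegrable.add
    · exact (log_int ρ.im _ _).abs
    · apply Continuous.intervalIntegrable
      fun_prop
  · have hne : ∀ᵐ u : ℝ, u ≠ ρ.im := by
      have : (({ρ.im} : Set ℝ)ᶜ) ∈ ae volume := by
        rw [mem_ae_iff, compl_compl]
        exact measure_singleton _
      exact this
    filter_upwards [hne] with u hu hu2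
    apply ContinuousAt.mul continuousAt_const
    apply ContinuousAt.log
    · unfold lf
      fun_prop
    · have h2 : 0 < |u - ρ.im| := abs_pos.2 (sub_ne_zero.2 hu)
      have h3 := lf_norm_ge ρ x0 u
      linarith

/-- integrability for a linear factor -/
lemma J_lf_int {w : ℝ → ℝ} (hw : Continuous w) (W : ℝ) (ρ : ℂ) (x : ℝ) :
    IntervalIntegrable (fun u : ℝ => w u * Real.log ‖lf ρ (x + u * I)‖) volume (-W) W := by
  obtain ⟨C, hC⟩ := (isCompact_uIcc (a := -W) (b := W)).exists_bound_of_continuousOn hw.continuousOn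
  have hC0 : 0 ≤ C := (norm_nonneg _).trans (hC (-W) left_mem_uIcc)
  have hR0 : 0 ≤ |x - ρ.re| := by positivity
  have hI : IntervalIntegrable (fun u => C * (|Real.log (|u - ρ.im|)| + (|x - ρ.re| + |u - ρ.im|))) volume (-W) W := by
    apply IntervalIntegrable.const_mul
    apply IntervalIntegrable.add
    · exact (log_int ρ.im _ _).abs
    · apply Continuous.intervalIntegrable
      fun_prop
  refine hI.mono_fun ?_ ?_
  · apply Measurable.aestronglyMeasurable
    have : Measurable fun u : ℝ => ‖lf ρ (x + u * I)‖ := by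
      unfold lf; fun_prop
    exact hw.measurable.mul (Real.measurable_log.comp this)
  · have hne : ∀ᵐ u : ℝ ∂(volume.restrict (uIoc (-W) W)), u ≠ ρ.im := by
      apply ae_restrict_of_ae
      have : (({ρ.im} : Set ℝ)ᶜ) ∈ ae volume := by
        rw [mem_ae_iff, compl_compl]
        exact measure_singleton _
      exact this
    filter_upwards [hne, ae_restrict_mem measurableSet_uIoc] with u hu hu2
    rw [norm_mul]
    have h1 := hC u (uIoc_subset_uIcc hu2)
    have h2 : 0 < |u - ρ.im| := abs_pos.2 (sub_ne_zero.2 hu)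
    have h4 := abs_log_le h2 (lf_norm_ge ρ x u) (lf_norm_le ρ x u) hR0
    calc ‖w u‖ * ‖Real.log ‖lf ρ (x + u * I)‖‖ ≤ C * (|Real.log (|u - ρ.im|)| + (|x - ρ.re| + |u - ρ.im|)) :=
          mul_le_mul h1 h4 (norm_nonneg _) hC0
      _ ≤ _ := le_abs_self _

/-- the derivative of `J H` for a linear factor -/
noncomputable def Dl (W : ℝ) (ρ : ℂ) (x : ℝ) : ℝ := ∫ u in (-W)..W, H W u * (q (lf ρ) (x + u * I)).re

/-- the restriction of `H` to the window -/
noncomputable def Ht (W γ : ℝ) : ℝ := if |γ| ≤ W then H W γ else 0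

lemma q_lf (ρ s : ℂ) : q (lf ρ) s = 1 / (s - ρ) := by
  unfold q
  have : deriv (lf ρ) s = 1 := by
    have h : HasDerivAt (lf ρ) 1 s := by
      unfold lf
      simpa using (hasDerivAt_id s).sub_const ρ
    exact h.deriv
  rw [this]
  rfl

lemma lf_diff (ρ : ℂ) : Differentiable ℂ (lf ρ) := by unfold lf; fun_prop

lemma lf_ne {ρ : ℂ} {x : ℝ} (hx : x ≠ ρ.re) (u : ℝ) : lf ρ (x + u * I) ≠ 0 := by
  unfold lf
  intro h
  apply hx
  have := congrArg Complex.re h
  simp at this
  linarith

/-- integration by parts -/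
lemma Dl_eq (W : ℝ) (ρ : ℂ) {x : ℝ} (hx : x ≠ ρ.re) :
    Dl W ρ x = -∫ u in (-W)..W, H1 W u * Real.arctan ((u - ρ.im) / (x - ρ.re)) := by
  have hy : x - ρ.re ≠ 0 := sub_ne_zero.2 hx
  have hd : ∀ u ∈ uIcc (-W) W, HasDerivAt (fun u : ℝ => Real.arctan ((u - ρ.im) / (x - ρ.re)))
      ((q (lf ρ) (x + u * I)).re) u := by
    intro u _
    have h1 : HasDerivAt (fun u : ℝ => (u - ρ.im) / (x - ρ.re)) (1 / (x - ρ.re)) u :=
      ((hasDerivAt_id u).sub_const ρ.im).div_const (x - ρ.re)
    have h2 := h1.arctan
    have e : (q (lf ρ) (x + u * I)).re = 1 / (1 + ((u - ρ.im) / (x - ρ.re)) ^ 2) * (1 / (x - ρ.re)) := by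
      rw [q_lf, Complex.div_re]
      have e1 : ((x : ℂ) + u * I - ρ).re = x - ρ.re := by simp
      have e2 : ((x : ℂ) + u * I - ρ).im = u - ρ.im := by simp
      rw [Complex.normSq_apply, e1, e2]
      simp only [Complex.one_re, Complex.one_im, zero_mul, zero_div, add_zero, one_mul]
      have h5 : (x - ρ.re) * (x - ρ.re) + (u - ρ.im) * (u - ρ.im) ≠ 0 := by
        have : 0 < (x - ρ.re) * (x - ρ.re) := mul_self_pos.2 hy
        nlinarith [mul_self_nonneg (u - ρ.im)]
      field_simp
    rw [e]
    exact h2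
  have hqc : Continuous fun u : ℝ => (q (lf ρ) (x + u * I)).re := by
    apply Complex.continuous_re.comp
    have : (fun u : ℝ => q (lf ρ) (x + u * I)) = fun u : ℝ => 1 / ((x : ℂ) + u * I - ρ) := by
      funext u; rw [q_lf]
    rw [this]
    refine Continuous.div continuous_const (by fun_prop) fun u => ?_
    exact lf_ne hx u
  have i1 := intervalIntegral.integral_mul_deriv_eq_deriv_mul (a := -W) (b := W)
    (u := H W) (u' := H1 W) (v := fun u : ℝ => Real.arctan ((u - ρ.im) / (x - ρ.re)))
    (v' := fun u : ℝ => (q (lf ρ) (x + u * I)).re)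
    (fun u _ => H_deriv W u) hd ((H1_cont W).intervalIntegrable _ _) (hqc.intervalIntegrable _ _)
  simp only [H_top, H_bot, zero_mul, sub_zero, zero_sub] at i1
  exact i1

lemma ae_ne (c : ℝ) : ∀ᵐ u : ℝ, u ≠ c := by
  have : (({c} : Set ℝ)ᶜ) ∈ ae volume := by
    rw [mem_ae_iff, compl_compl]
    exact measure_singleton _
  exact this

/-- the integral of the sign -/
lemma sign_int {W : ℝ} (hW : 0 ≤ W) (γ : ℝ) :
    ∫ u in (-W)..W, H1 W u * (Real.pi / 2 * SignType.sign (u - γ)) = -(Real.pi * Ht W γ) := by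
  have hii : ∀ a b : ℝ, IntervalIntegrable (H1 W) volume a b := fun a b => (H1_cont W).intervalIntegrable _ _
  have hftc : ∀ a b : ℝ, ∫ u in a..b, H1 W u = H W b - H W a := fun a b =>
    intervalIntegral.integral_eq_sub_of_hasDerivAt (fun u _ => H_deriv W u) (hii a b)
  have hneg : ∀ a b : ℝ, a ≤ b → b ≤ γ → ∫ u in a..b, H1 W u * (Real.pi / 2 * SignType.sign (u - γ)) =
      -(Real.pi / 2) * (H W b - H W a) := by
    intro a b hab hb
    rw [← hftc, ← intervalIntegral.integral_const_mul]
    apply intervalIntegral.integral_congr_ae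
    filter_upwards [ae_ne b] with u hu hu2
    rw [uIoc_of_le hab] at hu2
    have h1 : u < b := lt_of_le_of_ne hu2.2 hu
    have h2 : u - γ < 0 := by linarith
    rw [sign_neg h2]
    simp
    ring
  have hpos : ∀ a b : ℝ, a ≤ b → γ ≤ a → ∫ u in a..b, H1 W u * (Real.pi / 2 * SignType.sign (u - γ)) =
      (Real.pi / 2) * (H W b - H W a) := by
    intro a b hab hb
    rw [← hftc, ← intervalIntegral.integral_const_mul]
    apply intervalIntegral.integral_congr_ae
    refine Eventually.of_forall fun u hu2 => ?_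
    rw [uIoc_of_le hab] at hu2
    have h2 : 0 < u - γ := by linarith [hu2.1]
    rw [sign_pos h2]
    simp
    ring
  unfold Ht
  split_ifs with h
  · have h1 := (abs_le.1 h).1
    have h2 := (abs_le.1 h).2
    have hi : ∀ a b : ℝ, IntervalIntegrable (fun u => H1 W u * (Real.pi / 2 * SignType.sign (u - γ))) volume a b := by
      intro a b
      refine (((hii a b).norm).const_mul (Real.pi / 2)).mono_fun ?_ ?_
      · apply Measurable.aestronglyMeasurable
        have hm : Measurable fun u : ℝ => ((SignType.sign (u - γ) : ℤ) : ℝ) := by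
          have e : (fun u : ℝ => ((SignType.sign (u - γ) : ℤ) : ℝ)) = fun u =>
              (Ioi γ).indicator (fun _ => (1 : ℝ)) u - (Iio γ).indicator (fun _ => (1 : ℝ)) u := by
            funext u
            rcases lt_trichotomy u γ with h | h | h
            · have : u - γ < 0 := by linarith
              simp [sign_neg this, indicator, h, not_lt.2 h.le]
            · simp [h, indicator]
            · have : 0 < u - γ := by linarith
              simp [sign_pos this, indicator, h, not_lt.2 h.le]
          rw [e]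
          exact (measurable_const.indicator measurableSet_Ioi).sub (measurable_const.indicator measurableSet_Iio)
        have e2 : (fun u : ℝ => H1 W u * (Real.pi / 2 * (SignType.sign (u - γ) : ℝ))) =
            fun u => H1 W u * (Real.pi / 2 * ((SignType.sign (u - γ) : ℤ) : ℝ)) := by
          funext u
          push_cast
          rfl
        rw [e2]
        exact (H1_cont W).measurable.mul (hm.const_mul _)
      · refine Eventually.of_forall fun u => ?_
        have hs : |((SignType.sign (u - γ) : SignType) : ℝ)| ≤ 1 := by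
          rcases lt_trichotomy u γ with h | h | h
          · have : u - γ < 0 := by linarith
            simp [sign_neg this]
          · simp [h]
          · have : 0 < u - γ := by linarith
            simp [sign_pos this]
        have hp := Real.pi_pos
        beta_reduce
        rw [Real.norm_eq_abs, Real.norm_eq_abs, abs_mul, abs_mul, abs_of_pos (by positivity : 0 < Real.pi / 2),
          abs_mul, abs_of_pos (by positivity : 0 < Real.pi / 2), abs_norm, Real.norm_eq_abs]
        nlinarith [abs_nonneg (H1 W u), mul_nonneg (abs_nonneg (H1 W u)) (abs_nonneg ((SignType.sign (u - γ) : SignType) : ℝ)),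
          mul_le_mul_of_nonneg_left hs (mul_nonneg (abs_nonneg (H1 W u)) (by positivity : 0 ≤ Real.pi / 2))]
    rw [← intervalIntegral.integral_add_adjacent_intervals (hi (-W) γ) (hi γ W), hneg _ _ h1 le_rfl,
      hpos _ _ h2 le_rfl, H_top, H_bot]
    ring
  · rw [abs_le, not_and_or, not_le, not_le] at h
    rcases h with h | h
    · rw [hpos _ _ (by linarith) h.le, H_top, H_bot]; ring
    · rw [hneg _ _ (by linarith) h.le, H_top, H_bot]; ring

/-- the limit of the derivative from the right -/
lemma Dl_right {W : ℝ} (hW : 0 ≤ W) (ρ : ℂ) :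
    Tendsto (Dl W ρ) (𝓝[>] ρ.re) (𝓝 (Real.pi * Ht W ρ.im)) := by
  have h1 : Tendsto (fun x : ℝ => -∫ u in (-W)..W, H1 W u * Real.arctan ((u - ρ.im) / (x - ρ.re))) (𝓝[>] ρ.re)
      (𝓝 (-∫ u in (-W)..W, H1 W u * (Real.pi / 2 * SignType.sign (u - ρ.im)))) := by
    apply Tendsto.neg
    apply intervalIntegral.tendsto_integral_filter_of_dominated_convergence
      (bound := fun u => |H1 W u| * (Real.pi / 2))
    · filter_upwards with x
      apply Measurable.aestronglyMeasurable
      exact (H1_cont W).measurable.mul (Real.measurable_arctan.comp (by fun_prop))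
    · filter_upwards with x
      refine Eventually.of_forall fun u _ => ?_
      rw [norm_mul, Real.norm_eq_abs, Real.norm_eq_abs]
      apply mul_le_mul_of_nonneg_left _ (abs_nonneg _)
      rw [abs_le]
      exact ⟨(Real.neg_pi_div_two_lt_arctan _).le, (Real.arctan_lt_pi_div_two _).le⟩
    · apply Continuous.intervalIntegrable
      have := H1_cont W
      fun_prop
    · filter_upwards [ae_ne ρ.im] with u hu _
      apply Tendsto.const_mul
      have hx0 : Tendsto (fun x : ℝ => (x - ρ.re)⁻¹) (𝓝[>] ρ.re) atTop := by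
        apply tendsto_inv_nhdsGT_zero.comp
        rw [tendsto_nhdsWithin_iff]
        constructor
        · have : Tendsto (fun x : ℝ => x - ρ.re) (𝓝 ρ.re) (𝓝 (ρ.re - ρ.re)) := by
            apply Continuous.tendsto; fun_prop
          rw [sub_self] at this
          exact this.mono_left nhdsWithin_le_nhds
        · filter_upwards [self_mem_nhdsWithin] with x hx
          have : ρ.re < x := hx
          exact sub_pos.2 this
      rcases lt_or_gt_of_ne hu with h | h
      · have h2 : u - ρ.im < 0 := by linarith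
        rw [sign_neg h2]
        have h3 : Tendsto (fun x : ℝ => (u - ρ.im) / (x - ρ.re)) (𝓝[>] ρ.re) atBot := by
          simp only [div_eq_mul_inv]
          exact hx0.const_mul_atTop_of_neg h2
        have h4 := Real.tendsto_arctan_atBot.mono_right (nhdsWithin_le_nhds) |>.comp h3
        have e : Real.pi / 2 * ((-1 : SignType) : ℝ) = -(Real.pi / 2) := by
          rw [SignType.coe_neg_one]; ring
        rw [e]
        exact h4
      · have h2 : 0 < u - ρ.im := by linarith
        rw [sign_pos h2]
        have h3 : Tendsto (fun x : ℝ => (u - ρ.im) / (x - ρ.re)) (𝓝[>] ρ.re) atTop := by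
          simp only [div_eq_mul_inv]
          exact hx0.const_mul_atTop h2
        have h4 := Real.tendsto_arctan_atTop.mono_right (nhdsWithin_le_nhds) |>.comp h3
        have e : Real.pi / 2 * ((1 : SignType) : ℝ) = Real.pi / 2 := by
          rw [SignType.coe_one]; ring
        rw [e]
        exact h4
  rw [sign_int hW, neg_neg] at h1
  refine h1.congr' ?_
  filter_upwards [self_mem_nhdsWithin] with x hx
  have : ρ.re < x := hx
  rw [Dl_eq W ρ this.ne']

/-- the reflection in the line `Re s = Re ρ` -/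
lemma Dl_symm (W : ℝ) (ρ : ℂ) {x : ℝ} (hx : x ≠ ρ.re) : Dl W ρ (2 * ρ.re - x) = -Dl W ρ x := by
  rw [Dl_eq W ρ hx, Dl_eq W ρ (by intro h; apply hx; linarith), neg_neg, ← intervalIntegral.integral_neg]
  congr 1
  funext u
  have e : (u - ρ.im) / (2 * ρ.re - x - ρ.re) = -((u - ρ.im) / (x - ρ.re)) := by
    rw [← div_neg]
    congr 1
    ring
  rw [e, Real.arctan_neg]
  ring

lemma Dl_left {W : ℝ} (hW : 0 ≤ W) (ρ : ℂ) :
    Tendsto (Dl W ρ) (𝓝[<] ρ.re) (𝓝 (-(Real.pi * Ht W ρ.im))) := by
  have h1 : Tendsto (fun x : ℝ => 2 * ρ.re - x) (𝓝[<] ρ.re) (𝓝[>] ρ.re) := by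
    rw [tendsto_nhdsWithin_iff]
    constructor
    · have : Tendsto (fun x : ℝ => 2 * ρ.re - x) (𝓝 ρ.re) (𝓝 (2 * ρ.re - ρ.re)) := by
        apply Continuous.tendsto; fun_prop
      rw [show 2 * ρ.re - ρ.re = ρ.re by ring] at this
      exact this.mono_left nhdsWithin_le_nhds
    · filter_upwards [self_mem_nhdsWithin] with x hx
      have h : x < ρ.re := hx
      show ρ.re < 2 * ρ.re - x
      linarith
  have h2 := ((Dl_right hW ρ).comp h1).neg
  refine h2.congr' ?_
  filter_upwards [self_mem_nhdsWithin] with x hx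
  have h : x < ρ.re := hx
  simp only [Function.comp]
  rw [Dl_symm W ρ h.ne, neg_neg]

end Pool.Agent.K4H72.SC
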