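import Pool.Agent.K4H72.SC.B

/-!
# The second derivative of the vertical integral, with the zeros
-/

set_option autoImplicit false

open MeasureTheory Filter Topology Set Complex

namespace Pool.Agent.K4H72.SC

theorem ord_ne_top {Y : ℂ → ℂ} (hY : Differentiable ℂ Y) (hne : ∃ z, Y z ≠ 0) (z : ℂ) :
    analyticOrderAt Y z ≠ ⊤ := by
  intro h
  rw [analyticOrderAt_eq_top] at h
  have h3 : AnalyticOnNhd ℂ Y Set.univ := fun z _ => hY.analyticAt z
  have h4 := h3.eqOn_zero_of_preconnected_of_eventuallyEq_zero isPreconnected_univ (Set.mem_univ z) h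
  obtain ⟨w, hw⟩ := hne
  exact hw (h4 (Set.mem_univ w))

lemma ord_zero_of_ne {Y : ℂ → ℂ} (hY : Differentiable ℂ Y) {z : ℂ} (h : Y z ≠ 0) : analyticOrderNatAt Y z = 0 := by
  have h3 : analyticOrderAt Y z = 0 := (hY.analyticAt z).analyticOrderAt_eq_zero.2 h
  unfold analyticOrderNatAt
  rw [h3]
  rfl

/-- dividing by a power of `z - a` -/
theorem div_pow {Y : ℂ → ℂ} (hY : Differentiable ℂ Y) (hne : ∃ z, Y z ≠ 0) (a : ℂ) (m : ℕ)
    (hm : m ≤ analyticOrderNatAt Y a) : ∃ g : ℂ → ℂ, Differentiable ℂ g ∧ (∀ z, Y z = (z - a) ^ m * g z) := by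
  induction m generalizing Y with
  | zero => exact ⟨Y, hY, fun z => by simp⟩
  | succ m ih =>
    have h0 : Y a = 0 := by
      by_contra h
      rw [ord_zero_of_ne hY h] at hm
      omega
    obtain ⟨g1, hg1⟩ : ∃ g1 : ℂ → ℂ, g1 = dslope Y a := ⟨_, rfl⟩
    have hd : Differentiable ℂ g1 := by
      rw [hg1]
      have h1 := (Complex.differentiableOn_dslope (f := Y) (s := Set.univ) (c := a) Filter.univ_mem).2
        hY.differentiableOn
      exact differentiableOn_univ.1 h1
    have heq : ∀ z, Y z = (z - a) * g1 z := by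
      intro z
      have h1 := sub_smul_dslope Y a z
      rw [h0, sub_zero, smul_eq_mul] at h1
      rw [hg1, h1]
    have hne1 : ∃ z, g1 z ≠ 0 := by
      obtain ⟨w, hw⟩ := hne
      refine ⟨w, fun h => hw ?_⟩
      rw [heq, h, mul_zero]
    have hord : analyticOrderNatAt Y a = 1 + analyticOrderNatAt g1 a := by
      have e : Y = (fun z => z - a) * g1 := funext heq
      have h1 : AnalyticAt ℂ (fun z : ℂ => z - a) a := by fun_prop
      have h2 : analyticOrderAt (fun z : ℂ => z - a) a = 1 := by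
        have := (h1.analyticOrderAt_eq_natCast (n := 1)).2 ⟨fun _ => 1, analyticAt_const, one_ne_zero, by
          filter_upwards with z
          simp⟩
        exact_mod_cast this
      rw [e, analyticOrderNatAt_mul h1 (hd.analyticAt a) (by rw [h2]; exact ENat.one_ne_top) (ord_ne_top hd hne1 a)]
      congr 1
      unfold analyticOrderNatAt
      rw [h2]
      rfl
    obtain ⟨g, hg, hgeq⟩ := ih hd hne1 (by omega)
    refine ⟨g, hg, fun z => ?_⟩
    rw [heq, hgeq, pow_succ]
    ring

/-- dividing by all zeros in a finite set -/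
theorem div_set {Y : ℂ → ℂ} (hY : Differentiable ℂ Y) (hne : ∃ z, Y z ≠ 0) (S : Finset ℂ) :
    ∃ g : ℂ → ℂ, Differentiable ℂ g ∧ (∀ z, Y z = (∏ a ∈ S, (z - a) ^ analyticOrderNatAt Y a) * g z) ∧
      ∀ a, a ∉ S → analyticOrderNatAt g a = analyticOrderNatAt Y a := by
  classical
  induction S using Finset.induction_on with
  | empty => exact ⟨Y, hY, fun z => by simp, fun a _ => rfl⟩
  | insert a S ha ih =>
    obtain ⟨g, hg, heq, hord⟩ := ih
    have hgne : ∃ z, g z ≠ 0 := by
      obtain ⟨w, hw⟩ := hne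
      refine ⟨w, fun h => hw ?_⟩
      rw [heq, h, mul_zero]
    obtain ⟨g1, hg1, heq1⟩ := div_pow hg hgne a (analyticOrderNatAt Y a) (hord a ha).ge
    have hg1ne : ∃ z, g1 z ≠ 0 := by
      obtain ⟨w, hw⟩ := hgne
      refine ⟨w, fun h => hw ?_⟩
      rw [heq1, h, mul_zero]
    refine ⟨g1, hg1, fun z => ?_, fun b hb => ?_⟩
    · rw [heq, Finset.prod_insert ha, heq1]
      ring
    · rw [Finset.mem_insert, not_or] at hb
      rw [← hord b hb.2]
      have e : g = (fun z => (z - a) ^ analyticOrderNatAt Y a) * g1 := funext heq1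
      have h1 : AnalyticAt ℂ (fun z : ℂ => (z - a) ^ analyticOrderNatAt Y a) b := by fun_prop
      have h2 : analyticOrderAt (fun z : ℂ => (z - a) ^ analyticOrderNatAt Y a) b = 0 :=
        h1.analyticOrderAt_eq_zero.2 (pow_ne_zero _ (sub_ne_zero.2 hb.1))
      rw [e, analyticOrderNatAt_mul h1 (hg1.analyticAt b) (by rw [h2]; exact ENat.zero_ne_top) (ord_ne_top hg1 hg1ne b)]
      have h3 : analyticOrderNatAt (fun z : ℂ => (z - a) ^ analyticOrderNatAt Y a) b = 0 := by
        unfold analyticOrderNatAt at h2 ⊢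
        rw [h2]
        rfl
      rw [h3, zero_add]

/-- `J H` minus `c` has the second derivative `- J H2` -/
def Sm (W : ℝ) (f : ℂ → ℂ) (c : ℝ → ℝ) (p r : ℝ) : Prop := ∃ E : ℝ → ℝ, ∀ x ∈ Icc p r,
  HasDerivAt (fun x => J (H W) W f x - c x) (E x) x ∧ HasDerivAt E (-J (H2 W) W f x) x

/-- a function without zeros -/
lemma Sm_zf {g : ℂ → ℂ} (hg : Differentiable ℂ g) {W p r : ℝ}
    (h0 : ∀ x ∈ Icc p r, ∀ u ∈ uIcc (-W) W, g (x + u * I) ≠ 0) : Sm W g (fun _ => 0) p r := by
  refine ⟨fun x => ∫ u in (-W)..W, H W u * (q g (x + u * I)).re, fun x hx => ⟨?_, J_deriv2 hg (h0 x hx)⟩⟩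
  simp only [sub_zero]
  exact J_deriv (H_cont W) hg (h0 x hx)

lemma J_zf_cont {w : ℝ → ℝ} (hw : Continuous w) {g : ℂ → ℂ} (hg : Differentiable ℂ g) {W p r : ℝ}
    (h0 : ∀ x ∈ Icc p r, ∀ u ∈ uIcc (-W) W, g (x + u * I) ≠ 0) : ContinuousOn (J w W g) (Icc p r) :=
  fun x hx => (J_deriv hw hg (h0 x hx)).continuousAt.continuousWithinAt

/-- a linear factor -/
lemma Sm_lf {W : ℝ} (hW : 0 ≤ W) (ρ : ℂ) (p r : ℝ) :
    Sm W (lf ρ) (fun x => 2 * Real.pi * Ht W ρ.im * max (x - ρ.re) 0) p r := by
  classical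
  set β := ρ.re with hβ
  set κ := Real.pi * Ht W ρ.im with hκ
  set E : ℝ → ℝ := fun x => if x < β then Dl W ρ x else if x = β then -κ else Dl W ρ x - 2 * κ with hE
  have hne : ∀ x, x ≠ β → ∀ u ∈ uIcc (-W) W, lf ρ (x + u * I) ≠ 0 := fun x hx u _ => lf_ne hx u
  -- continuity of E at β
  have hEc : ContinuousAt E β := by
    have hval : E β = -κ := by simp [hE]
    rw [continuousAt_iff_continuous_left'_right']
    constructor
    · unfold ContinuousWithinAt
      rw [hval]
      refine (Dl_left hW ρ).congr' ?_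
      filter_upwards [self_mem_nhdsWithin] with x hx
      have h : x < β := hx
      simp [hE, h]
    · unfold ContinuousWithinAt
      rw [hval]
      have h1 : Tendsto (fun x => Dl W ρ x - 2 * κ) (𝓝[>] β) (𝓝 (κ - 2 * κ)) :=
        (Dl_right hW ρ).sub_const _
      rw [show κ - 2 * κ = -κ by ring] at h1
      refine h1.congr' ?_
      filter_upwards [self_mem_nhdsWithin] with x hx
      have h : β < x := hx
      simp [hE, not_lt.2 h.le, h.ne']
  -- derivatives away from β
  have hd1 : ∀ x, x ≠ β → HasDerivAt (fun x => J (H W) W (lf ρ) x -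
      2 * Real.pi * Ht W ρ.im * max (x - β) 0) (E x) x := by
    intro x hx
    have h1 : HasDerivAt (J (H W) W (lf ρ)) (Dl W ρ x) x := J_deriv (H_cont W) (lf_diff ρ) (hne x hx)
    rcases lt_or_gt_of_ne hx with h | h
    · have h2 : HasDerivAt (fun x => 2 * Real.pi * Ht W ρ.im * max (x - β) 0) 0 x := by
        refine (hasDerivAt_const x (0:ℝ)).congr_of_eventuallyEq ?_
        filter_upwards [Iio_mem_nhds h] with y hy
        have : y < β := hy
        rw [max_eq_right (by linarith), mul_zero]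
      have h3 := h1.sub h2
      have e : E x = Dl W ρ x - 0 := by simp [hE, h]
      rw [e]
      exact h3
    · have h2 : HasDerivAt (fun x => 2 * Real.pi * Ht W ρ.im * max (x - β) 0) (2 * κ) x := by
        have h4 : HasDerivAt (fun x => 2 * Real.pi * Ht W ρ.im * (x - β)) (2 * Real.pi * Ht W ρ.im * 1) x :=
          ((hasDerivAt_id x).sub_const β).const_mul _
        have e4 : 2 * κ = 2 * Real.pi * Ht W ρ.im * 1 := by rw [hκ]; ring
        rw [e4]
        refine h4.congr_of_eventuallyEq ?_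
        filter_upwards [Ioi_mem_nhds h] with y hy
        have : β < y := hy
        rw [max_eq_left (by linarith)]
      have h3 := h1.sub h2
      have e : E x = Dl W ρ x - 2 * κ := by simp [hE, not_lt.2 h.le, h.ne']
      rw [e]
      exact h3
  have hd2 : ∀ x, x ≠ β → HasDerivAt E (-J (H2 W) W (lf ρ) x) x := by
    intro x hx
    have h1 : HasDerivAt (Dl W ρ) (-J (H2 W) W (lf ρ) x) x := J_deriv2 (lf_diff ρ) (hne x hx)
    rcases lt_or_gt_of_ne hx with h | h
    · refine h1.congr_of_eventuallyEq ?_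
      filter_upwards [Iio_mem_nhds h] with y hy
      have : y < β := hy
      simp [hE, this]
    · refine (h1.sub_const (2 * κ)).congr_of_eventuallyEq ?_
      filter_upwards [Ioi_mem_nhds h] with y hy
      have : β < y := hy
      simp [hE, not_lt.2 this.le, this.ne']
  refine ⟨E, fun x _ => ?_⟩
  by_cases hx : x = β
  · rw [hx]
    constructor
    · refine hasDerivAt_of_hasDerivAt_of_ne (fun y hy => hd1 y hy) ?_ hEc
      apply ContinuousAt.sub (J_lf_cont (H_cont W) W ρ).continuousAt
      fun_prop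
    · refine hasDerivAt_of_hasDerivAt_of_ne (g := fun x => -J (H2 W) W (lf ρ) x) (fun y hy => hd2 y hy) hEc ?_
      exact (J_lf_cont (H2_cont W) W ρ).neg.continuousAt
  · exact ⟨hd1 x hx, hd2 x hx⟩

/-- the decomposition of the integrals -/
lemma J_prod {w : ℝ → ℝ} (hw : Continuous w) {f g : ℂ → ℂ} {S : Finset ℂ} {m : ℂ → ℕ}
    (hg : Differentiable ℂ g) (hfg : ∀ z, f z = (∏ a ∈ S, (z - a) ^ m a) * g z) {W x : ℝ}
    (h0 : ∀ u ∈ uIcc (-W) W, g (x + u * I) ≠ 0) :
    IntervalIntegrable (fun u : ℝ => w u * Real.log ‖f (x + u * I)‖) volume (-W) W ∧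
    J w W f x = ∑ a ∈ S, m a * J w W (lf a) x + J w W g x := by
  have hgi : IntervalIntegrable (fun u : ℝ => w u * Real.log ‖g (x + u * I)‖) volume (-W) W := by
    apply ContinuousOn.intervalIntegrable
    refine ContinuousOn.mul hw.continuousOn (ContinuousOn.log ?_ ?_)
    · exact (hg.continuous.comp (by fun_prop)).norm.continuousOn
    · intro u hu
      exact norm_ne_zero_iff.2 (h0 u hu)
  have hsi : ∀ a ∈ S, IntervalIntegrable (fun u : ℝ => (m a : ℝ) * (w u * Real.log ‖lf a (x + u * I)‖))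
      volume (-W) W := fun a _ => (J_lf_int hw W a x).const_mul _
  have hsum : IntervalIntegrable (fun u : ℝ => ∑ a ∈ S, (m a : ℝ) * (w u * Real.log ‖lf a (x + u * I)‖))
      volume (-W) W := by
    have := IntervalIntegrable.sum S hsi
    rw [Finset.sum_fn] at this
    exact this
  have hae : ∀ᵐ u : ℝ, u ∈ uIoc (-W) W → w u * Real.log ‖f (x + u * I)‖ =
      ∑ a ∈ S, (m a : ℝ) * (w u * Real.log ‖lf a (x + u * I)‖) + w u * Real.log ‖g (x + u * I)‖ := by
    have hfin : ∀ᵐ u : ℝ, ∀ a ∈ S, u ≠ a.im := by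
      exact (Filter.eventually_all_finset S).2 fun a _ => ae_ne a.im
    filter_upwards [hfin] with u hu hu2
    have hgn := h0 u (uIoc_subset_uIcc hu2)
    have hz : ∀ a ∈ S, (x + u * I : ℂ) - a ≠ 0 := by
      intro a ha h
      apply hu a ha
      have := congrArg Complex.im h
      simp at this
      linarith
    rw [hfg, norm_mul, Real.log_mul (norm_ne_zero_iff.2 (Finset.prod_ne_zero_iff.2 fun a ha => pow_ne_zero _ (hz a ha)))
      (norm_ne_zero_iff.2 hgn), norm_prod, Real.log_prod (fun a ha => norm_ne_zero_iff.2 (pow_ne_zero _ (hz a ha))),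
      mul_add, Finset.mul_sum]
    congr 1
    apply Finset.sum_congr rfl
    intro a _
    rw [norm_pow, Real.log_pow]
    unfold lf
    ring
  constructor
  · refine (hsum.add hgi).congr_ae ?_
    exact (ae_restrict_iff' measurableSet_uIoc).2 (hae.mono fun u h hu => (h hu).symm)
  · unfold J
    rw [intervalIntegral.integral_congr_ae hae, intervalIntegral.integral_add hsum hgi,
      intervalIntegral.integral_finsetSum hsi]
    congr 1
    apply Finset.sum_congr rfl
    intro a _
    rw [intervalIntegral.integral_const_mul]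

end Pool.Agent.K4H72.SC
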