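import Pool.Agent.K4H72.SC.C

/-!
# The identity for an entire function
-/

set_option autoImplicit false

open MeasureTheory Filter Topology Set Complex

namespace Pool.Agent.K4H72.SC

/-- the closed rectangle -/
def Rect (p r W : ℝ) : Set ℂ := {z | p ≤ z.re ∧ z.re ≤ r ∧ |z.im| ≤ W}

lemma rect_compact (p r W : ℝ) : IsCompact (Rect p r W) := by
  have h : Rect p r W = (Icc p r) ×ℂ (Icc (-W) W) := by
    ext z
    simp only [Rect, mem_ofPred_eq, Complex.mem_reProdIm, mem_Icc, abs_le, and_assoc]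
  rw [h]
  exact isCompact_Icc.reProdIm isCompact_Icc

lemma zeros_finite {f : ℂ → ℂ} (hf : Differentiable ℂ f) (hne : ∃ z, f z ≠ 0) {K : Set ℂ} (hK : IsCompact K) :
    {z | z ∈ K ∧ f z = 0}.Finite := by
  by_contra h
  have hinf : {z | z ∈ K ∧ f z = 0}.Infinite := h
  obtain ⟨z0, _, hz0⟩ := hinf.exists_accPt_of_subset_isCompact hK (fun z hz => hz.1)
  rw [accPt_iff_frequently_nhdsNE] at hz0
  have h3 : AnalyticOnNhd ℂ f Set.univ := fun z _ => hf.analyticAt z
  have h4 := h3.eqOn_zero_of_preconnected_of_frequently_eq_zero isPreconnected_univ (Set.mem_univ z0)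
    (hz0.mono fun z hz => hz.2)
  obtain ⟨w, hw⟩ := hne
  exact hw (h4 (Set.mem_univ w))

lemma order_pow_sub (b : ℂ) (k : ℕ) : analyticOrderNatAt (fun z : ℂ => (z - b) ^ k) b = k := by
  have h1 : AnalyticAt ℂ (fun z : ℂ => (z - b) ^ k) b := by fun_prop
  have := (h1.analyticOrderAt_eq_natCast (n := k)).2 ⟨fun _ => 1, analyticAt_const, one_ne_zero, by
    filter_upwards with z
    simp⟩
  unfold analyticOrderNatAt
  rw [this]
  rfl

/-- the factorisation over a rectangle -/
theorem fact {f : ℂ → ℂ} (hf : Differentiable ℂ f) (hne : ∃ z, f z ≠ 0) {K : Set ℂ} (hK : IsCompact K) :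
    ∃ (S : Finset ℂ) (g : ℂ → ℂ), Differentiable ℂ g ∧ (∀ z, z ∈ S ↔ z ∈ K ∧ f z = 0) ∧
      (∀ z, f z = (∏ a ∈ S, (z - a) ^ analyticOrderNatAt f a) * g z) ∧ ∀ z ∈ K, g z ≠ 0 := by
  classical
  obtain ⟨S, hS⟩ : ∃ S : Finset ℂ, ∀ z, z ∈ S ↔ z ∈ K ∧ f z = 0 :=
    ⟨(zeros_finite hf hne hK).toFinset, fun z => by simp⟩
  obtain ⟨g, hg, hfg, _⟩ := div_set hf hne S
  have hgne : ∃ z, g z ≠ 0 := by
    obtain ⟨w, hw⟩ := hne
    refine ⟨w, fun h => hw ?_⟩
    rw [hfg, h, mul_zero]
  refine ⟨S, g, hg, hS, hfg, fun z hz hgz => ?_⟩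
  by_cases hzS : z ∈ S
  · have e : f = (fun w => (w - z) ^ analyticOrderNatAt f z) *
        ((fun w => ∏ a ∈ S.erase z, (w - a) ^ analyticOrderNatAt f a) * g) := by
      funext w
      simp only [Pi.mul_apply]
      rw [← mul_assoc, Finset.mul_prod_erase S (fun a => (w - a) ^ analyticOrderNatAt f a) hzS]
      exact hfg w
    have h1 : AnalyticAt ℂ (fun w : ℂ => (w - z) ^ analyticOrderNatAt f z) z := by fun_prop
    have hPd : Differentiable ℂ (fun w => ∏ a ∈ S.erase z, (w - a) ^ analyticOrderNatAt f a) := by fun_prop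
    have h2 : Differentiable ℂ ((fun w => ∏ a ∈ S.erase z, (w - a) ^ analyticOrderNatAt f a) * g) := hPd.mul hg
    have hne1 : ∃ w, ((fun w => ∏ a ∈ S.erase z, (w - a) ^ analyticOrderNatAt f a) * g) w ≠ 0 := by
      obtain ⟨w, hw⟩ := hne
      refine ⟨w, fun h => hw ?_⟩
      rw [e, Pi.mul_apply, h, mul_zero]
    have hne2 : ∃ w : ℂ, (fun w : ℂ => (w - z) ^ analyticOrderNatAt f z) w ≠ 0 := by
      refine ⟨z + 1, ?_⟩
      simp
    have hd1 : Differentiable ℂ (fun w : ℂ => (w - z) ^ analyticOrderNatAt f z) := by fun_prop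
    have h3 := analyticOrderNatAt_mul h1 (h2.analyticAt z) (ord_ne_top hd1 hne2 z) (ord_ne_top h2 hne1 z)
    rw [← e, order_pow_sub] at h3
    have h4 : analyticOrderNatAt ((fun w => ∏ a ∈ S.erase z, (w - a) ^ analyticOrderNatAt f a) * g) z = 0 := by
      omega
    have h5 : analyticOrderAt ((fun w => ∏ a ∈ S.erase z, (w - a) ^ analyticOrderNatAt f a) * g) z = 0 := by
      have h6 := ord_ne_top h2 hne1 z
      rw [← Nat.cast_analyticOrderNatAt h6, h4]
      rfl
    rw [(h2.analyticAt z).analyticOrderAt_eq_zero] at h5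
    apply h5
    rw [Pi.mul_apply, hgz, mul_zero]
  · apply hzS
    rw [hS]
    exact ⟨hz, by rw [hfg, hgz, mul_zero]⟩

/-- the contribution of the zeros -/
noncomputable def cz (f : ℂ → ℂ) (W : ℝ) (S : Finset ℂ) (x : ℝ) : ℝ :=
  ∑ a ∈ S, (analyticOrderNatAt f a : ℝ) * (2 * Real.pi * Ht W a.im * max (x - a.re) 0)

theorem Sm_main {f : ℂ → ℂ} (hf : Differentiable ℂ f) (hne : ∃ z, f z ≠ 0) {W p r : ℝ} (hW : 0 ≤ W) :
    ∃ S : Finset ℂ, (∀ z, z ∈ S ↔ z ∈ Rect (p - 1) (r + 1) W ∧ f z = 0) ∧ Sm W f (cz f W S) p r ∧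
      (∀ w : ℝ → ℝ, Continuous w → ContinuousOn (J w W f) (Icc p r)) ∧
      (∀ w : ℝ → ℝ, Continuous w → ∀ x ∈ Icc p r,
        IntervalIntegrable (fun u : ℝ => w u * Real.log ‖f (x + u * I)‖) volume (-W) W) := by
  obtain ⟨S, g, hg, hS, hfg, hgz⟩ := fact hf hne (rect_compact (p - 1) (r + 1) W)
  have h0 : ∀ x ∈ Icc (p - 1) (r + 1), ∀ u ∈ uIcc (-W) W, g (x + u * I) ≠ 0 := by
    intro x hx u hu
    apply hgz
    rw [uIcc_of_le (by linarith)] at hu
    refine ⟨by simpa using hx.1, by simpa using hx.2, ?_⟩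
    rw [abs_le]
    simpa using hu
  have hsub : ∀ x ∈ Icc p r, x ∈ Icc (p - 1) (r + 1) := fun x hx => ⟨by linarith [hx.1], by linarith [hx.2]⟩
  have hJ : ∀ w : ℝ → ℝ, Continuous w → ∀ x ∈ Icc (p - 1) (r + 1), J w W f x =
      ∑ a ∈ S, (analyticOrderNatAt f a : ℝ) * J w W (lf a) x + J w W g x :=
    fun w hw x hx => (J_prod hw hg hfg (h0 x hx)).2
  refine ⟨S, hS, ?_, ?_, fun w hw x hx => (J_prod hw hg hfg (h0 x (hsub x hx))).1⟩
  · obtain ⟨Eg, hEg⟩ := Sm_zf (p := p) (r := r) hg (fun x hx => h0 x (hsub x hx))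
    choose El hEl using fun a : ℂ => Sm_lf hW a p r
    refine ⟨fun x => ∑ a ∈ S, (analyticOrderNatAt f a : ℝ) * El a x + Eg x, fun x hx => ?_⟩
    have hnb : Icc (p - 1) (r + 1) ∈ 𝓝 x := Icc_mem_nhds (by linarith [hx.1]) (by linarith [hx.2])
    constructor
    · have h1 : HasDerivAt (fun x => ∑ a ∈ S, (analyticOrderNatAt f a : ℝ) *
          (J (H W) W (lf a) x - 2 * Real.pi * Ht W a.im * max (x - a.re) 0))
          (∑ a ∈ S, (analyticOrderNatAt f a : ℝ) * El a x) x :=
        HasDerivAt.fun_sum fun a _ => ((hEl a x hx).1).const_mul _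
      have h2 := h1.add (hEg x hx).1
      refine h2.congr_of_eventuallyEq ?_
      filter_upwards [hnb] with y hy
      rw [hJ _ (H_cont W) y hy, Pi.add_apply]
      unfold cz
      simp only [mul_sub, Finset.sum_sub_distrib, sub_zero]
      ring
    · have h1 : HasDerivAt (fun x => ∑ a ∈ S, (analyticOrderNatAt f a : ℝ) * El a x)
          (∑ a ∈ S, (analyticOrderNatAt f a : ℝ) * (-J (H2 W) W (lf a) x)) x :=
        HasDerivAt.fun_sum fun a _ => ((hEl a x hx).2).const_mul _
      have h2 := h1.add (hEg x hx).2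
      rw [hJ _ (H2_cont W) x (hsub x hx)]
      have e : -(∑ a ∈ S, (analyticOrderNatAt f a : ℝ) * J (H2 W) W (lf a) x + J (H2 W) W g x) =
          ∑ a ∈ S, (analyticOrderNatAt f a : ℝ) * (-J (H2 W) W (lf a) x) + -J (H2 W) W g x := by
        simp only [mul_neg, Finset.sum_neg_distrib]
        ring
      rw [e]
      exact h2
  · intro w hw
    refine ContinuousOn.congr ?_ (fun x hx => hJ w hw x (hsub x hx))
    apply ContinuousOn.add
    · apply continuousOn_finsetSum
      intro a _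
      exact (continuous_const.mul (J_lf_cont hw W a)).continuousOn
    · exact J_zf_cont hw hg (fun x hx => h0 x (hsub x hx))

/-- integration by parts, twice -/
lemma ibp2 {P E P2 K K1 K2 : ℝ → ℝ} {x1 x2 : ℝ} (hx : x1 ≤ x2)
    (hP : ∀ x ∈ Icc x1 x2, HasDerivAt P (E x) x) (hE : ∀ x ∈ Icc x1 x2, HasDerivAt E (P2 x) x)
    (hc : ContinuousOn P2 (Icc x1 x2)) (hK : ∀ x, HasDerivAt K (K1 x) x) (hK1 : ∀ x, HasDerivAt K1 (K2 x) x)
    (hK2 : Continuous K2) :
    ∫ x in x1..x2, K x * P2 x =
      K x2 * E x2 - K x1 * E x1 - (K1 x2 * P x2 - K1 x1 * P x1) + ∫ x in x1..x2, K2 x * P x := by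
  have hu : uIcc x1 x2 = Icc x1 x2 := uIcc_of_le hx
  have hK1c : Continuous K1 := continuous_iff_continuousAt.2 fun x => (hK1 x).continuousAt
  have i1 := intervalIntegral.integral_mul_deriv_eq_deriv_mul (a := x1) (b := x2)
    (u := K) (u' := K1) (v := E) (v' := P2) (fun x _ => hK x) (fun x hx => hE x (by rwa [hu] at hx))
    (hK1c.intervalIntegrable _ _) (ContinuousOn.intervalIntegrable (by rwa [hu]))
  have hEc : ContinuousOn E (Icc x1 x2) := fun x hx => (hE x hx).continuousAt.continuousWithinAt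
  have i2 := intervalIntegral.integral_mul_deriv_eq_deriv_mul (a := x1) (b := x2)
    (u := K1) (u' := K2) (v := P) (v' := E) (fun x _ => hK1 x) (fun x hx => hP x (by rwa [hu] at hx))
    (hK2.intervalIntegrable _ _) (ContinuousOn.intervalIntegrable (by rwa [hu]))
  rw [i1, i2]
  ring

/-- the tent -/
noncomputable def tent (p c r x : ℝ) : ℝ := max (p - x) 0 + max (r - x) 0 - 2 * max (c - x) 0

/-- **the identity with the tent function** -/
theorem tent_identity {f : ℂ → ℂ} {W p c r : ℝ} {S : Finset ℂ} (hpc : p < c) (hr : r - c = c - p)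
    (hS : Sm W f (cz f W S) p r) (hcont : ∀ w : ℝ → ℝ, Continuous w → ContinuousOn (J w W f) (Icc p r)) :
    2 * Real.pi * ∑ a ∈ S, (analyticOrderNatAt f a : ℝ) * (Ht W a.im * tent p c r a.re) =
      J (H W) W f p + J (H W) W f r - 2 * J (H W) W f c +
        ((∫ x in p..c, (x - p) * J (H2 W) W f x) + ∫ x in c..r, (r - x) * J (H2 W) W f x) := by
  obtain ⟨E, hE⟩ := hS
  have hcr : c < r := by linarith
  have hsub1 : Icc p c ⊆ Icc p r := Icc_subset_Icc le_rfl hcr.le
  have hsub2 : Icc c r ⊆ Icc p r := Icc_subset_Icc hpc.le le_rfl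
  set P : ℝ → ℝ := fun x => J (H W) W f x - cz f W S x with hP
  have i1 := ibp2 (P := P) (E := E) (P2 := fun x => -J (H2 W) W f x) (K := fun x => x - p) (K1 := fun _ => 1)
    (K2 := fun _ => 0) hpc.le (fun x hx => (hE x (hsub1 hx)).1) (fun x hx => (hE x (hsub1 hx)).2)
    ((hcont _ (H2_cont W)).mono hsub1).neg (fun x => by simpa using (hasDerivAt_id x).sub_const p)
    (fun x => hasDerivAt_const x 1) continuous_const
  have i2 := ibp2 (P := P) (E := E) (P2 := fun x => -J (H2 W) W f x) (K := fun x => r - x) (K1 := fun _ => -1)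
    (K2 := fun _ => 0) hcr.le (fun x hx => (hE x (hsub2 hx)).1) (fun x hx => (hE x (hsub2 hx)).2)
    ((hcont _ (H2_cont W)).mono hsub2).neg (fun x => by simpa using (hasDerivAt_id x).const_sub r)
    (fun x => hasDerivAt_const x (-1)) continuous_const
  simp only [zero_mul, intervalIntegral.integral_zero, mul_neg, intervalIntegral.integral_neg] at i1 i2
  have e : 2 * Real.pi * ∑ a ∈ S, (analyticOrderNatAt f a : ℝ) * (Ht W a.im * tent p c r a.re) =
      cz f W S p + cz f W S r - 2 * cz f W S c := by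
    unfold cz
    rw [Finset.mul_sum, Finset.mul_sum, ← Finset.sum_add_distrib, ← Finset.sum_sub_distrib]
    apply Finset.sum_congr rfl
    intro a _
    unfold tent
    ring
  rw [e]
  simp only [hP] at i1 i2
  have e2 : r - c = c - p := hr
  rw [e2] at i2
  linarith

lemma ramp_deriv (β x : ℝ) : HasDerivAt (fun x => (max (x - β) 0) ^ 2 / 2) (max (x - β) 0) x := by
  have hne : ∀ y, y ≠ β → HasDerivAt (fun x => (max (x - β) 0) ^ 2 / 2) (max (y - β) 0) y := by
    intro y hy
    rcases lt_or_gt_of_ne hy with h | h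
    · rw [max_eq_right (by linarith)]
      refine (hasDerivAt_const y (0:ℝ)).congr_of_eventuallyEq ?_
      filter_upwards [Iio_mem_nhds h] with z hz
      have : z < β := hz
      rw [max_eq_right (by linarith)]
      ring
    · rw [max_eq_left (by linarith)]
      have h1 : HasDerivAt (fun x => (x - β) ^ 2 / 2) ((2 : ℕ) * (y - β) ^ (2 - 1) * 1 / 2) y :=
        (((hasDerivAt_id y).sub_const β).pow 2).div_const 2
      have e : y - β = (2 : ℕ) * (y - β) ^ (2 - 1) * 1 / 2 := by norm_num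
      rw [e]
      refine h1.congr_of_eventuallyEq ?_
      filter_upwards [Ioi_mem_nhds h] with z hz
      have : β < z := hz
      rw [max_eq_left (by linarith)]
  by_cases hx : x = β
  · rw [hx]
    exact hasDerivAt_of_hasDerivAt_of_ne (g := fun y => max (y - β) 0) hne (by fun_prop) (by fun_prop)
  · exact hne x hx

lemma ramp_int (β p c : ℝ) :
    ∫ x in p..c, max (x - β) 0 = (max (c - β) 0) ^ 2 / 2 - (max (p - β) 0) ^ 2 / 2 :=
  intervalIntegral.integral_eq_sub_of_hasDerivAt (fun x _ => ramp_deriv β x)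
    ((by fun_prop : Continuous fun x => max (x - β) 0).intervalIntegrable _ _)

/-- the second test function: `(x - p)²` up to `c`, then linear, zero from `d` on -/
noncomputable def BB (p c d x : ℝ) : ℝ := (max (c - x) 0) ^ 2 - (max (p - x) 0) ^ 2 -
  (2 * (c - p) + (c - p) ^ 2 / (d - c)) * max (c - x) 0 + (c - p) ^ 2 / (d - c) * max (d - x) 0

lemma BB_left {p c d x : ℝ} (hpc : p < c) (hcd : c < d) (h1 : p ≤ x) (h2 : x ≤ c) : BB p c d x = (x - p) ^ 2 := by
  unfold BB
  rw [max_eq_left (by linarith), max_eq_right (by linarith), max_eq_left (by linarith)]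
  have : d - c ≠ 0 := by linarith
  field_simp
  ring

lemma BB_nonneg {p c d : ℝ} (hpc : p < c) (hcd : c < d) (x : ℝ) : 0 ≤ BB p c d x := by
  rcases le_total x p with h | h
  · have e : BB p c d x = 0 := by
      unfold BB
      rw [max_eq_left (by linarith), max_eq_left (by linarith), max_eq_left (by linarith)]
      have : d - c ≠ 0 := by linarith
      field_simp
      ring
    rw [e]
  · rcases le_total x c with h2 | h2
    · rw [BB_left hpc hcd h h2]; positivity
    · unfold BB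
      rw [max_eq_right (by linarith : c - x ≤ 0), max_eq_right (by linarith : p - x ≤ 0)]
      have : 0 < d - c := by linarith
      have : 0 ≤ (c - p) ^ 2 / (d - c) * max (d - x) 0 := by positivity
      linarith

/-- **the identity with the second test function** -/
theorem convex_identity {f : ℂ → ℂ} {W p c d : ℝ} {S : Finset ℂ} (hpc : p < c) (hcd : c < d)
    (hS : Sm W f (cz f W S) p d) (hcont : ∀ w : ℝ → ℝ, Continuous w → ContinuousOn (J w W f) (Icc p d)) :
    2 * Real.pi * ∑ a ∈ S, (analyticOrderNatAt f a : ℝ) * (Ht W a.im * BB p c d a.re) =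
      2 * (∫ x in p..c, J (H W) W f x) - (2 * (c - p) + (c - p) ^ 2 / (d - c)) * J (H W) W f c +
        (c - p) ^ 2 / (d - c) * J (H W) W f d +
        ((∫ x in p..c, (x - p) ^ 2 * J (H2 W) W f x) +
          (c - p) ^ 2 / (d - c) * ∫ x in c..d, (d - x) * J (H2 W) W f x) := by
  obtain ⟨E, hE⟩ := hS
  have hsub1 : Icc p c ⊆ Icc p d := Icc_subset_Icc le_rfl hcd.le
  have hsub2 : Icc c d ⊆ Icc p d := Icc_subset_Icc hpc.le le_rfl
  set P : ℝ → ℝ := fun x => J (H W) W f x - cz f W S x with hP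
  have hczc : Continuous (cz f W S) := by
    unfold cz
    fun_prop
  have i1 := ibp2 (P := P) (E := E) (P2 := fun x => -J (H2 W) W f x) (K := fun x => (x - p) ^ 2)
    (K1 := fun x => 2 * (x - p))
    (K2 := fun _ => 2) hpc.le (fun x hx => (hE x (hsub1 hx)).1) (fun x hx => (hE x (hsub1 hx)).2)
    ((hcont _ (H2_cont W)).mono hsub1).neg (fun x => by
      have h := ((hasDerivAt_id x).sub_const p).pow 2
      have e : 2 * (x - p) = (2 : ℕ) * (x - p) ^ (2 - 1) * 1 := by norm_num
      rw [e]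
      exact h) (fun x => by simpa using ((hasDerivAt_id x).sub_const p).const_mul 2) continuous_const
  have i2 := ibp2 (P := P) (E := E) (P2 := fun x => -J (H2 W) W f x) (K := fun x => d - x) (K1 := fun _ => -1)
    (K2 := fun _ => 0) hcd.le (fun x hx => (hE x (hsub2 hx)).1) (fun x hx => (hE x (hsub2 hx)).2)
    ((hcont _ (H2_cont W)).mono hsub2).neg (fun x => by simpa using (hasDerivAt_id x).const_sub d)
    (fun x => hasDerivAt_const x (-1)) continuous_const
  have hPi : ∫ x in p..c, 2 * P x = 2 * (∫ x in p..c, J (H W) W f x) - 2 * ∫ x in p..c, cz f W S x := by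
    rw [intervalIntegral.integral_const_mul, hP, intervalIntegral.integral_sub
      (ContinuousOn.intervalIntegrable (by
        rw [uIcc_of_le hpc.le]; exact (hcont _ (H_cont W)).mono hsub1))
      (hczc.intervalIntegrable _ _)]
    ring
  have hczi : ∫ x in p..c, cz f W S x = ∑ a ∈ S, (analyticOrderNatAt f a : ℝ) * (2 * Real.pi * Ht W a.im *
      ((max (c - a.re) 0) ^ 2 / 2 - (max (p - a.re) 0) ^ 2 / 2)) := by
    unfold cz
    rw [intervalIntegral.integral_finsetSum]
    · apply Finset.sum_congr rfl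
      intro a _
      rw [intervalIntegral.integral_const_mul, intervalIntegral.integral_const_mul, ramp_int]
    · intro a _
      apply Continuous.intervalIntegrable
      fun_prop
  rw [hPi] at i1
  simp only [zero_mul, intervalIntegral.integral_zero, mul_neg, intervalIntegral.integral_neg] at i1 i2
  set α : ℝ := (c - p) ^ 2 / (d - c) with hα
  have hα2 : α * (d - c) = (c - p) ^ 2 := by
    rw [hα]
    have : d - c ≠ 0 := by linarith
    field_simp
  have e : 2 * Real.pi * ∑ a ∈ S, (analyticOrderNatAt f a : ℝ) * (Ht W a.im * BB p c d a.re) =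
      2 * (∫ x in p..c, cz f W S x) - (2 * (c - p) + α) * cz f W S c + α * cz f W S d := by
    rw [hczi]
    unfold cz
    rw [Finset.mul_sum, Finset.mul_sum, Finset.mul_sum, Finset.mul_sum, ← Finset.sum_sub_distrib,
      ← Finset.sum_add_distrib]
    apply Finset.sum_congr rfl
    intro a _
    unfold BB
    rw [← hα]
    ring
  rw [e]
  simp only [hP] at i1 i2
  have i3 : α * -(∫ x in c..d, (d - x) * J (H2 W) W f x) = α * ((d - d) * E d - (d - c) * E c -
      (-(J (H W) W f d - cz f W S d) - -(J (H W) W f c - cz f W S c)) + 0) := by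
    rw [i2]
    ring
  have i4 : α * ((d - c) * E c) = (c - p) ^ 2 * E c := by rw [← mul_assoc, hα2]
  linear_combination i1 + i3 - i4

end Pool.Agent.K4H72.SC
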