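import Mathlib
import Pool.Agent.K4H72.SC.Cls

/-!
The class of standard L-functions contains the Dirichlet L-functions (same proof as in
`Pool.Agent.Results.MP_cf4097_nt.WeakSubconvexity`).
-/

set_option autoImplicit false

open scoped ArithmeticFunction.vonMangoldt

namespace Pool.Agent.K4H72.SC

open Pool.Agent.R402.MeanSq Pool.Agent.R402.Ser Pool.Agent.R402.Eul Pool.Agent.R402.Core

/-- The class is not empty: with one absolute constant `A` and `θ = 0` it contains the Dirichlet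
L-functions of all primitive characters of modulus `q > 1` (degree one; `μ` is `0` or `1` according
to the parity). -/
theorem isStandard_dirichlet : ∃ A : ℝ, ∀ (q : ℕ) [NeZero q] (χ : DirichletCharacter ℂ q),
    1 < q → χ.IsPrimitive →
    (StdL.mk q (fun _ => H370.DL.aa χ) (fun m _ => χ m) (DirichletCharacter.rootNumber χ)
      (DirichletCharacter.LFunction χ) : StdL 1).IsStandard 0 A := by
  refine ⟨2 * (C1 * Real.exp 1), fun q _ χ hq hχ => ?_⟩
  have h1 := H855R2.SF.ne_one_of_prim hq hχ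
  set D : StdL 1 := StdL.mk q (fun _ => H370.DL.aa χ) (fun m _ => χ m)
    (DirichletCharacter.rootNumber χ) (DirichletCharacter.LFunction χ) with hD
  have ha : ∀ m : ℕ, ‖D.a m‖ ≤ 1 := by
    intro m
    unfold StdL.a
    simp only [hD, Finset.univ_unique, Finset.sum_singleton, norm_pow]
    exact pow_le_one₀ (norm_nonneg _) (DirichletCharacter.norm_le_one χ _)
  have hle : ∀ (σ : ℝ) (m : ℕ), Λ m * ‖D.a m‖ ^ 2 * (m : ℝ) ^ (-σ) ≤ v σ m := by
    intro σ m
    unfold v
    have h2 : 0 ≤ Λ m := ArithmeticFunction.vonMangoldt_nonneg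
    have h3 : ‖D.a m‖ ^ 2 ≤ 1 := pow_le_one₀ (norm_nonneg _) (ha m)
    have h4 : 0 ≤ (m : ℝ) ^ (-σ) := Real.rpow_nonneg (Nat.cast_nonneg m) _
    calc Λ m * ‖D.a m‖ ^ 2 * (m : ℝ) ^ (-σ) ≤ Λ m * 1 * (m : ℝ) ^ (-σ) := by gcongr
      _ = _ := by ring
  have hnn : ∀ (σ : ℝ) (m : ℕ), 0 ≤ Λ m * ‖D.a m‖ ^ 2 * (m : ℝ) ^ (-σ) := by
    intro σ m
    have h2 : 0 ≤ Λ m := ArithmeticFunction.vonMangoldt_nonneg
    have h4 : 0 ≤ (m : ℝ) ^ (-σ) := Real.rpow_nonneg (Nat.cast_nonneg m) _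
    positivity
  have hsumm : ∀ σ : ℝ, 1 < σ → Summable fun m : ℕ => Λ m * ‖D.a m‖ ^ 2 * (m : ℝ) ^ (-σ) :=
    fun σ hσ => Summable.of_nonneg_of_le (hnn σ) (hle σ) (summable_v hσ)
  refine ⟨?_, ?_, ?_, ?_, ?_, ?_, ?_, ?_, hsumm, ?_⟩
  · show 0 < q
    omega
  · exact H429.GP.norm_rootNumber hχ
  · intro p hp j
    rw [Real.rpow_zero]
    exact DirichletCharacter.norm_le_one χ _
  · intro j
    have := H429.GP.aa_re_nonneg (χ := χ)
    show -0 ≤ (H370.DL.aa χ).re
    linarith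
  · exact DirichletCharacter.differentiable_LFunction h1
  · exact H855R2.SF.order_dir hq hχ
  · intro s hs
    have h2 := DirichletCharacter.LSeries_eulerProduct_hasProd χ hs
    rw [← DirichletCharacter.LFunction_eq_LSeries χ hs] at h2
    simpa [hD] using h2
  · intro s
    have h2 := H855R2.SF.fe_dir hq hχ s
    simp only [map_neg, sub_neg_eq_add] at h2
    exact h2
  · intro σ hσ hσ2 t
    have h2 : ∑' m : ℕ, Λ m * ‖D.a m‖ ^ 2 * (m : ℝ) ^ (-σ) ≤ ∑' m, v σ m :=
      (hsumm σ hσ).tsum_le_tsum (hle σ) (summable_v hσ)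
    refine (h2.trans (sum_v_le hσ hσ2)).trans ?_
    have h3 : 0 ≤ Real.log (D.cond (1 / 2 + t * Complex.I)) :=
      Real.log_nonneg (one_le_cond (by show 0 < q; omega) _)
    have h4 : 0 ≤ 2 * (C1 * Real.exp 1) := by
      have := C1_pos
      positivity
    nlinarith [mul_nonneg h4 h3]


end Pool.Agent.K4H72.SC
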